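import Pool.Agent.HS3.FinMod

/-!
# Invariant pairs and thin sets: definitions
-/

set_option autoImplicit false
set_option linter.unusedSectionVars false
set_option linter.unusedVariables false

open Set MeasureTheory Metric Filter Topology
open scoped NNReal ENNReal

namespace Pool.Agent.Helper83.IO

open Pool.Agent.Helper3.HS

variable {V : Type*} [NormedAddCommGroup V] [NormedSpace ℝ V] [FiniteDimensional ℝ V]
  [MeasurableSpace V] [BorelSpace V] {p : ℕ} [hp : Fact p.Prime]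

/-- Pairs of an invariant map `F` and a `p ℤ_p`-invariant function `w` can be moved off the value
`(y, t)` on the set `Z` by small perturbations of the same kind. -/
def Mv2 (D : PreDat V p) (y : V) (t : ℝ) (Z : Set V) : Prop :=
  ∀ (F : V → V) (w : V → ℝ), ContinuousOn F (closure D.U) → ContinuousOn w (closure D.U) →
    (∀ a, ∀ x ∈ D.U, F (D.g a x) = F x) → (∀ a, ∀ x ∈ D.U, w (D.g (p * a) x) = w x) →
    ∀ ε : ℝ, 0 < ε → ∃ (ψ : V → V) (χ : V → ℝ), Continuous ψ ∧ Continuous χ ∧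
      (∀ a, ∀ x ∈ D.U, ψ (D.g a x) = ψ x) ∧ (∀ a, ∀ x ∈ D.U, χ (D.g (p * a) x) = χ x) ∧
      (∀ x, ‖ψ x‖ ≤ ε) ∧ (∀ x, |χ x| ≤ ε) ∧ ∀ x ∈ Z, ¬ (F x + ψ x = y ∧ w x + χ x = t)

/-- **Thin sets.** Here `Γ a x` is the position of the point `x` under the element `a` of the
group. The set `Z` has covers for which the integral over `p ^ l ℤ_p` of the `N`-th powers of the
diameters of the moved members is as small as we like. -/
def ThinFam {X Y : Type*} [PseudoEMetricSpace Y] [MeasurableSpace ℤ_[p]] (ν : Measure ℤ_[p])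
    (Γ : ℤ_[p] → X → Y) (l N : ℕ) (Z : Set X) : Prop :=
  ∀ ε : ℝ≥0∞, 0 < ε → ∃ (E : ℕ → Set X) (ρ : ℕ → ℤ_[p] → ℝ≥0∞), Z ⊆ ⋃ i, E i ∧
    (∀ i, Measurable (ρ i)) ∧
    (∀ i a, ediam (Γ ((p : ℤ_[p]) ^ l * a) '' (E i ∩ Z)) ≤ ρ i a) ∧
    ∑' i, ∫⁻ a, (ρ i a) ^ N ∂ν ≤ ε

theorem Mv2.mono {D : PreDat V p} {y : V} {t : ℝ} {Z Z' : Set V} (h : Mv2 D y t Z')
    (hZ : Z ⊆ Z') : Mv2 D y t Z := by
  intro F w hF hw hFi hwi ε hε
  obtain ⟨ψ, χ, h1, h2, h3, h4, h5, h6, h7⟩ := h F w hF hw hFi hwi ε hε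
  exact ⟨ψ, χ, h1, h2, h3, h4, h5, h6, fun x hx => h7 x (hZ hx)⟩

theorem Mv2.empty (D : PreDat V p) (y : V) (t : ℝ) : Mv2 D y t ∅ := by
  intro F w hF hw hFi hwi ε hε
  exact ⟨fun _ => 0, fun _ => 0, continuous_const, continuous_const, fun _ _ _ => rfl,
    fun _ _ _ => rfl, fun _ => by simpa using hε.le, fun _ => by simpa using hε.le,
    fun x hx => hx.elim⟩

theorem ThinFam.mono {X Y : Type*} [PseudoEMetricSpace Y] [MeasurableSpace ℤ_[p]]
    {ν : Measure ℤ_[p]} {Γ : ℤ_[p] → X → Y} {l N : ℕ} {Z Z' : Set X}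
    (h : ThinFam ν Γ l N Z') (hZ : Z ⊆ Z') : ThinFam ν Γ l N Z := by
  intro ε hε
  obtain ⟨E, ρ, h1, h2, h3, h4⟩ := h ε hε
  exact ⟨E, ρ, hZ.trans h1, h2, fun i a => (ediam_mono (image_mono
    (inter_subset_inter_right _ hZ))).trans (h3 i a), h4⟩

end Pool.Agent.Helper83.IO
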