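import Pool.Agent.Helper83.IO.Lip

/-!
# The local step for thin sets
-/

set_option autoImplicit false
set_option linter.unusedSectionVars false
set_option linter.unusedVariables false

open Set MeasureTheory Metric Filter Topology
open scoped NNReal ENNReal

namespace Pool.Agent.Helper83.IO

open Pool.Agent.Helper3.HS

variable {G : Type*} [AddCommGroup G] [TopologicalSpace G] [IsTopologicalAddGroup G]
  [CompactSpace G]
  {V : Type*} [NormedAddCommGroup V] [NormedSpace ℝ V] [FiniteDimensional ℝ V]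
  {W : Type*} [NormedAddCommGroup W] [NormedSpace ℝ W] [FiniteDimensional ℝ W]
  {m : ℕ}

/-- The translates of a small ball under the elements outside the open subgroup `K` are disjoint
from the `K`-saturation of the ball. -/
theorem exists_sep_ball (D : GA G V) {K : AddSubgroup G} (hK : IsOpen (K : Set G)) {x₀ : V}
    (hx₀ : x₀ ∈ D.U) (hst : ∀ a, a ∉ K → D.g a x₀ ≠ x₀) :
    ∃ ρ : ℝ, 0 < ρ ∧ closedBall x₀ ρ ⊆ D.U ∧ ∀ x ∈ closedBall x₀ ρ, ∀ x' ∈ closedBall x₀ ρ,
      ∀ a, a ∉ K → ∀ b ∈ K, D.g a x ≠ D.g b x' := by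
  have hKc : IsClosed (K : Set G) := K.isClosed_of_isOpen hK
  have hcomp : IsCompact ((K : Set G)ᶜ ×ˢ (K : Set G)) :=
    hK.isClosed_compl.isCompact.prod hKc.isCompact
  have hev : ∀ᶠ q in 𝓝 ((x₀, x₀) : V × V), ∀ c ∈ (K : Set G)ᶜ ×ˢ (K : Set G),
      D.g c.1 q.1 ≠ D.g c.2 q.2 := by
    apply hcomp.eventually_forall_of_forall_eventually
    rintro ⟨a, b⟩ ⟨ha, hb⟩
    have hne : D.g a x₀ ≠ D.g b x₀ := by
      intro h
      have h1 : D.g (-b + a) x₀ = x₀ := by
        rw [D.hgadd _ _ x₀ hx₀, h, D.inv b hx₀]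
      refine hst (-b + a) ?_ h1
      intro h2
      apply ha
      have h3 := K.add_mem hb h2
      have e : b + (-b + a) = a := by abel
      rw [e] at h3
      exact h3
    have hca : ContinuousAt (fun q : (V × V) × (G × G) => D.g q.2.1 q.1.1) ((x₀, x₀), (a, b)) :=
      ContinuousAt.comp (g := fun q : V × G => D.g q.2 q.1)
        (f := fun q : (V × V) × (G × G) => (q.1.1, q.2.1)) (x := ((x₀, x₀), (a, b)))
        (D.continuousAt_swap hx₀ a) (by fun_prop)
    have hcb : ContinuousAt (fun q : (V × V) × (G × G) => D.g q.2.2 q.1.2) ((x₀, x₀), (a, b)) :=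
      ContinuousAt.comp (g := fun q : V × G => D.g q.2 q.1)
        (f := fun q : (V × V) × (G × G) => (q.1.2, q.2.2)) (x := ((x₀, x₀), (a, b)))
        (D.continuousAt_swap hx₀ b) (by fun_prop)
    exact (hca.prodMk hcb).preimage_mem_nhds
      (isClosed_diagonal.isOpen_compl.mem_nhds (fun h => hne h))
  have h1 : ∀ᶠ q in 𝓝 ((x₀, x₀) : V × V), q.1 ∈ D.U :=
    (continuous_fst.tendsto _).eventually (D.hU.mem_nhds hx₀)
  obtain ⟨ρ, hρ, hb⟩ := Metric.nhds_basis_closedBall.mem_iff.mp (hev.and h1)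
  refine ⟨ρ, hρ, ?_, ?_⟩
  · intro x hx
    have h2 : ((x, x₀) : V × V) ∈ closedBall ((x₀, x₀) : V × V) ρ := by
      rw [← closedBall_prod_same]
      exact ⟨hx, mem_closedBall_self hρ.le⟩
    exact (hb h2).2
  · intro x hx x' hx' a ha b hb'
    have h2 : ((x, x') : V × V) ∈ closedBall ((x₀, x₀) : V × V) ρ := by
      rw [← closedBall_prod_same]
      exact ⟨hx, hx'⟩
    exact (hb h2).1 (a, b) ⟨ha, hb'⟩

/-- A function that is zero outside a compact subset of `U`, composed with the action. -/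
theorem continuous_joint (D : GA G V) {ψ₀ : V → W} (hψ : Continuous ψ₀) {B : Set V}
    (hB : IsCompact B) (hBU : B ⊆ D.U) (h0 : ∀ x ∉ B, ψ₀ x = 0) [DecidablePred (· ∈ D.U)] :
    Continuous (fun q : V × G => if q.1 ∈ D.U then ψ₀ (D.g q.2 q.1) else 0) := by
  have : ProperSpace V := FiniteDimensional.proper ℝ V
  set K : Set V := (fun q : G × V => D.g q.1 q.2) '' (univ ×ˢ B) with hK
  have hKcomp : IsCompact K := D.compact_sat hB hBU isCompact_univ
  have hKU : K ⊆ D.U := D.sat_sub hBU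
  have hKmem : ∀ x ∈ D.U, x ∉ K → ∀ a, ψ₀ (D.g a x) = 0 := by
    intro x hx hxK a
    apply h0
    intro h
    exact hxK ⟨(-a, D.g a x), ⟨mem_univ _, h⟩, D.inv a hx⟩
  rw [continuous_iff_continuousAt]
  rintro ⟨x, a⟩
  by_cases hx : x ∈ D.U
  · have h5 : ContinuousAt (fun q : V × G => ψ₀ (D.g q.2 q.1)) (x, a) :=
      hψ.continuousAt.comp (D.continuousAt_swap hx a)
    apply h5.congr
    filter_upwards [(D.hU.prod isOpen_univ).mem_nhds (⟨hx, mem_univ a⟩ : (x, a) ∈ D.U ×ˢ univ)]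
      with q hq
    rw [if_pos hq.1]
  · have hxK : x ∉ K := fun h => hx (hKU h)
    apply (continuousAt_const (y := (0 : W))).congr
    filter_upwards [(hKcomp.isClosed.isOpen_compl.prod isOpen_univ).mem_nhds
      (⟨hxK, mem_univ a⟩ : (x, a) ∈ Kᶜ ×ˢ univ)] with q hq
    split_ifs with h
    · exact (hKmem q.1 h hq.1 q.2).symm
    · rfl

/-- **The invariant cutoff.** -/
theorem exists_cutoff (D : GA G V) {K : AddSubgroup G} (hK : IsClosed (K : Set G)) {x₀ : V}
    {ρ : ℝ} (hρ : 0 < ρ) (hρU : closedBall x₀ ρ ⊆ D.U) :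
    ∃ lam : V → ℝ, Continuous lam ∧ Inv D K lam ∧ (∀ x, 0 ≤ lam x) ∧ (∀ x, lam x ≤ 1) ∧
      (∀ x ∈ closedBall x₀ (ρ / 2), lam x = 1) ∧
      ∀ x, x ∉ (fun q : G × V => D.g q.1 q.2) '' ((K : Set G) ×ˢ closedBall x₀ ρ) →
        lam x = 0 := by
  classical
  have : ProperSpace V := FiniteDimensional.proper ℝ V
  set β : V → ℝ := fun x => max 0 (ρ - dist x x₀) with hβ
  have hβc : Continuous β := by fun_prop
  have hβ0 : ∀ x ∉ closedBall x₀ ρ, β x = 0 := by
    intro x hx
    rw [mem_closedBall] at hx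
    push Not at hx
    exact max_eq_left (by linarith)
  have hβn : ∀ x, 0 ≤ β x := fun x => le_max_left _ _
  have hβρ : ∀ x, β x ≤ ρ := fun x => max_le hρ.le (by linarith [dist_nonneg (x := x) (y := x₀)])
  have hj := continuous_joint D hβc (isCompact_closedBall x₀ ρ) hρU hβ0
  set f : V → G → ℝ := fun x a => if x ∈ D.U then β (D.g a x) else 0 with hf
  have hfc : Continuous (Function.uncurry f) := hj
  have hfn : ∀ x a, 0 ≤ f x a := by
    intro x a
    simp only [hf]
    split_ifs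
    · exact hβn _
    · exact le_rfl
  have hfρ : ∀ x a, f x a ≤ ρ := by
    intro x a
    simp only [hf]
    split_ifs
    · exact hβρ _
    · exact hρ.le
  set L : V → ℝ := fun x => sSup (f x '' (K : Set G)) with hL
  have hLc : Continuous L := hK.isCompact.continuous_sSup hfc
  have hne : ((K : Set G)).Nonempty := ⟨0, K.zero_mem⟩
  have hbdd : ∀ x, BddAbove (f x '' (K : Set G)) := by
    intro x
    refine ⟨ρ, ?_⟩
    rintro _ ⟨a, -, rfl⟩
    exact hfρ x a
  have hL0 : ∀ x, 0 ≤ L x := fun x =>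
    (hfn x 0).trans (le_csSup (hbdd x) ⟨0, K.zero_mem, rfl⟩)
  have hLinv : Inv D K L := by
    intro b hb x hx
    have h1 : f (D.g b x) '' (K : Set G) = f x '' (K : Set G) := by
      have h2 : ∀ a, f (D.g b x) a = f x (a + b) := by
        intro a
        simp only [hf]
        rw [if_pos (D.hgU b x hx), if_pos hx, D.hgadd a b x hx]
      ext t
      constructor
      · rintro ⟨a, ha, rfl⟩
        exact ⟨a + b, K.add_mem ha hb, (h2 a).symm⟩
      · rintro ⟨a, ha, rfl⟩
        refine ⟨a - b, K.sub_mem ha hb, ?_⟩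
        rw [h2, sub_add_cancel]
    change sSup (f (D.g b x) '' (K : Set G)) = sSup (f x '' (K : Set G))
    rw [h1]
  refine ⟨fun x => min 1 (L x / (ρ / 2)), by fun_prop, ?_, ?_, ?_, ?_, ?_⟩
  · intro b hb x hx
    simp only
    rw [hLinv b hb x hx]
  · intro x
    have := hL0 x
    exact le_min zero_le_one (by positivity)
  · intro x
    exact min_le_left _ _
  · intro x hx
    have hxU : x ∈ D.U := hρU (closedBall_subset_closedBall (by linarith) hx)
    apply min_eq_left
    rw [le_div_iff₀ (by positivity), one_mul]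
    have h1 : f x 0 ≤ L x := le_csSup (hbdd x) ⟨0, K.zero_mem, rfl⟩
    have h2 : ρ / 2 ≤ f x 0 := by
      simp only [hf]
      rw [if_pos hxU, D.hg0 x hxU]
      rw [mem_closedBall] at hx
      exact le_trans (by linarith) (le_max_right _ _)
    linarith
  · intro x hx
    have h1 : L x = 0 := by
      apply le_antisymm _ (hL0 x)
      apply csSup_le (hne.image _)
      rintro _ ⟨a, ha, rfl⟩
      simp only [hf]
      split_ifs with hxU
      · rw [hβ0]
        intro h
        exact hx ⟨(-a, D.g a x), ⟨K.neg_mem ha, h⟩, D.inv a hxU⟩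
      · exact le_rfl
    simp only
    rw [h1, zero_div]
    exact min_eq_right zero_le_one

/-- **Spreading.** A `K`-invariant map supported near `x₀` is turned into an invariant pair. -/
theorem exists_spread (D : GA G V) {H : Fin m → AddSubgroup G} {K : AddSubgroup G}
    (hK : IsOpen (K : Set G)) (hKH : ∀ i, K ≤ H i) {δ : V → V × (Fin m → ℝ)}
    (hδc : Continuous δ) (hδi : Inv D K δ) {L : Set V} (hL : IsCompact L) (hLU : L ⊆ D.U)
    (hδ0 : ∀ x ∉ L, δ x = 0) {N : Set V} (hNU : N ⊆ D.U)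
    (hN : ∀ x ∈ N, ∀ a, a ∉ K → D.g a x ∉ L) {c : ℝ} (hc : 0 < c)
    (hc' : ∃ (_ : MeasurableSpace G) (_ : BorelSpace G) (ν : Measure G) (_ : ν.IsAddHaarMeasure)
      (_ : IsProbabilityMeasure ν), c = (ν (K : Set G)).toReal)
    {ε : ℝ} (hε : 0 < ε) (hδε : ∀ x, ‖δ x‖ ≤ c * ε) :
    ∃ Ψ : V → V × (Fin m → ℝ), Continuous Ψ ∧ InvP D H Ψ ∧ (∀ x, ‖Ψ x‖ ≤ ε) ∧
      ∀ x ∈ N, Ψ x = δ x := by
  classical
  obtain ⟨_, _, ν, _, _, hcν⟩ := hc'
  have htop : IsOpen ((⊤ : AddSubgroup G) : Set G) := by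
    rw [AddSubgroup.coe_top]
    exact isOpen_univ
  have hHo : ∀ i, IsOpen ((H i : AddSubgroup G) : Set G) := fun i =>
    AddSubgroup.isOpen_mono (hKH i) hK
  obtain ⟨A, hA1, hA2, hA3, hA4⟩ := exists_avg D ν htop (ψ₀ := fun x => (δ x).1)
    (continuous_fst.comp hδc) hL hLU (fun x hx => by simp only [hδ0 x hx]; rfl)
    (fun x => (norm_fst_le (δ x)).trans (hδε x))
  have h2 : ∀ i : Fin m, ∃ A : V → ℝ, Continuous A ∧ Inv D (H i) A ∧
      (∀ x, ‖A x‖ ≤ c * ε) ∧
      ∀ x ∈ D.U, ∀ S : Set G, MeasurableSet S → S ⊆ H i →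
        (∀ a ∈ S, (δ (D.g a x)).2 i = (δ x).2 i) →
        (∀ a ∈ H i, a ∉ S → (δ (D.g a x)).2 i = 0) → A x = (ν S).toReal • (δ x).2 i := by
    intro i
    apply exists_avg D ν (hHo i) (ψ₀ := fun x => (δ x).2 i)
      ((continuous_apply i).comp (continuous_snd.comp hδc)) hL hLU
      (fun x hx => by simp only [hδ0 x hx]; rfl)
    intro x
    exact ((norm_le_pi_norm (δ x).2 i).trans (norm_snd_le (δ x))).trans (hδε x)
  choose B hB1 hB2 hB3 hB4 using h2
  have hKm : MeasurableSet (K : Set G) := hK.measurableSet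
  refine ⟨fun x => (c⁻¹ • A x, fun i => c⁻¹ • B i x), ?_, ⟨?_, ?_⟩, ?_, ?_⟩
  · exact (hA1.const_smul _).prodMk (continuous_pi fun i => continuous_const.mul (hB1 i))
  · intro a ha x hx
    simp only
    rw [hA2 a ha x hx]
  · intro i a ha x hx
    simp only
    rw [hB2 i a ha x hx]
  · intro x
    rw [Prod.norm_def]
    have h5 : ∀ t : ℝ, t ≤ c * ε → c⁻¹ * t ≤ ε := by
      intro t ht
      calc c⁻¹ * t ≤ c⁻¹ * (c * ε) := by gcongr
        _ = ε := by field_simp
    apply max_le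
    · simp only
      rw [norm_smul, norm_inv, Real.norm_of_nonneg hc.le]
      exact h5 _ (hA3 x)
    · simp only
      rw [pi_norm_le_iff_of_nonneg hε.le]
      intro i
      rw [norm_smul, norm_inv, Real.norm_of_nonneg hc.le]
      exact h5 _ (hB3 i x)
  · intro x hx
    have hxU := hNU hx
    have e1 : A x = c • (δ x).1 := by
      rw [hcν]
      apply hA4 x hxU K hKm (by simp)
      · intro a ha
        rw [hδi a ha x hxU]
      · intro a _ ha
        rw [hδ0 _ (hN x hx a ha)]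
        rfl
    have e2 : ∀ i, B i x = c • (δ x).2 i := by
      intro i
      rw [hcν]
      apply hB4 i x hxU K hKm (hKH i)
      · intro a ha
        rw [hδi a ha x hxU]
      · intro a _ ha
        rw [hδ0 _ (hN x hx a ha)]
        rfl
    simp only [e1, e2, smul_smul, inv_mul_cancel₀ hc.ne', one_smul]

/-- The norm of the difference of an average and a constant. -/
theorem norm_integral_sub_le {A E : Type*} [MeasurableSpace A] (ν : Measure A)
    [IsProbabilityMeasure ν] [NormedAddCommGroup E] [NormedSpace ℝ E] [CompleteSpace E]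
    {f : A → E} (hf : Integrable f ν) {c : E} {M : ℝ} (h : ∀ a, ‖f a - c‖ ≤ M) :
    ‖(∫ a, f a ∂ν) - c‖ ≤ M := by
  have h1 : (∫ a, f a ∂ν) - c = ∫ a, (f a - c) ∂ν := by
    rw [integral_sub hf (integrable_const c), integral_const]
    simp
  rw [h1]
  have h2 := norm_integral_le_of_norm_le_const (μ := ν) (f := fun a => f a - c) (C := M)
    (ae_of_all _ h)
  simpa using h2

variable [MeasurableSpace V] [BorelSpace V] {D : GA G V}
  {A : Type*} [AddCommGroup A] [TopologicalSpace A] [IsTopologicalAddGroup A] [CompactSpace A]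
  [MeasurableSpace A] [BorelSpace A] {ν : Measure A} [ν.IsAddHaarMeasure]
  [IsProbabilityMeasure ν]
  {Y : Type*} [MetricSpace Y] {Γ : G → V → Y} {H : Fin m → AddSubgroup G}

/-- **The local step for thin sets.** Here `j` parametrizes the open subgroup `K`. -/
theorem thin_local (hc : ContinuousOn (fun q : G × V => Γ q.1 q.2) (univ ×ˢ D.U))
    (hg : ∀ a b, ∀ u ∈ D.U, Γ a (D.g b u) = Γ (a + b) u) (hinj : InjOn (Γ 0) D.U)
    {K : AddSubgroup G} (hK : IsOpen (K : Set G)) (hKH : ∀ i, K ≤ H i)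
    {j : A →+ G} (hj : Continuous j) (hjK : ∀ b, b ∈ K ↔ ∃ a, j a = b) {Z : Set V}
    (hZU : Z ⊆ D.U) (hN0 : Module.finrank ℝ V + m ≠ 0)
    (hthin : Thin ν (fun a x => Γ (j a) x) (Module.finrank ℝ V + m) Z) {x₀ : V}
    (hx₀ : x₀ ∈ D.U) (hst : ∀ a, a ∉ K → D.g a x₀ ≠ x₀) (z : V × (Fin m → ℝ)) :
    ∃ N ∈ 𝓝 x₀, IsClosed N ∧ MvP D H z (N ∩ Z) := by
  classical
  have : ProperSpace V := FiniteDimensional.proper ℝ V
  have hKc : IsClosed (K : Set G) := K.isClosed_of_isOpen hK
  obtain ⟨ρ, hρ, hρU, hsep⟩ := exists_sep_ball D hK hx₀ hst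
  obtain ⟨lam, hl1, hl2, hl3, hl4, hl5, hl6⟩ := exists_cutoff D hKc hρ hρU
  -- the saturation of the ball
  set L : Set V := (fun q : G × V => D.g q.1 q.2) '' ((K : Set G) ×ˢ closedBall x₀ ρ) with hL
  have hLc : IsCompact L := D.compact_sat (isCompact_closedBall x₀ ρ) hρU hKc.isCompact
  have hLU : L ⊆ D.U := D.sat_sub hρU
  have hLK : ∀ x ∈ L, ∀ b ∈ K, D.g b x ∈ L := by
    rintro _ ⟨⟨a, x⟩, ⟨ha, hx⟩, rfl⟩ b hb
    exact ⟨(b + a, x), ⟨K.add_mem hb ha, hx⟩, D.hgadd b a x (hρU hx)⟩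
  have hjmem : ∀ a, j a ∈ K := fun a => (hjK _).2 ⟨a, rfl⟩
  refine ⟨closedBall x₀ (ρ / 2), closedBall_mem_nhds _ (by positivity), isClosed_closedBall, ?_⟩
  intro Φ hΦ hΦi ε hε
  have hΦU : ContinuousOn Φ D.U := hΦ.mono subset_closure
  have hΦK : ∀ b ∈ K, ∀ x ∈ D.U, Φ (D.g b x) = Φ x := by
    intro b hb x hx
    apply Prod.ext
    · exact hΦi.1 b (AddSubgroup.mem_top b) x hx
    · funext i
      exact hΦi.2 i b (hKH i hb) x hx
  -- the Haar measure of the whole group
  obtain ⟨c, hc0, hc'⟩ : ∃ c : ℝ, 0 < c ∧ ∃ (_ : MeasurableSpace G) (_ : BorelSpace G)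
      (ν : Measure G) (_ : ν.IsAddHaarMeasure) (_ : IsProbabilityMeasure ν),
      c = (ν (K : Set G)).toReal := by
    let _ : MeasurableSpace G := borel G
    have hB : BorelSpace G := ⟨rfl⟩
    have hprob : IsProbabilityMeasure
        (Measure.addHaarMeasure (⊤ : TopologicalSpace.PositiveCompacts G)) := by
      constructor
      have := Measure.addHaarMeasure_self (K₀ := (⊤ : TopologicalSpace.PositiveCompacts G))
      simpa using this
    refine ⟨_, ?_, borel G, hB, Measure.addHaarMeasure (⊤ : TopologicalSpace.PositiveCompacts G),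
      inferInstance, hprob, rfl⟩
    exact ENNReal.toReal_pos (hK.measure_pos _ ⟨0, K.zero_mem⟩).ne' (measure_ne_top _ _)
  -- the Lipschitz approximation
  have hΓ0 : ContinuousOn (Γ 0) D.U := by
    have h1 : ContinuousOn (fun x : V => ((0 : G), x)) D.U := by fun_prop
    exact hc.comp h1 (fun x hx => ⟨mem_univ _, hx⟩)
  set K' : Set Y := Γ 0 '' L with hK'
  have hK'c : IsCompact K' := hLc.image_of_continuousOn (hΓ0.mono hLU)
  have hinjL : InjOn (Γ 0) L := hinj.mono hLU
  set φ : Y → V := Function.invFunOn (Γ 0) L with hφ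
  have hφL : ∀ x ∈ L, φ (Γ 0 x) = x := fun x hx => hinjL.leftInvOn_invFunOn hx
  have hφc : ContinuousOn φ K' := by
    rw [continuousOn_iff_isClosed]
    intro T hT
    refine ⟨Γ 0 '' (L ∩ T), ?_, ?_⟩
    · exact ((hLc.inter_right hT).image_of_continuousOn
        (hΓ0.mono (inter_subset_left.trans hLU))).isClosed
    · ext y
      constructor
      · rintro ⟨h1, x, hx, rfl⟩
        refine ⟨⟨x, ⟨hx, ?_⟩, rfl⟩, x, hx, rfl⟩
        have h2 : φ (Γ 0 x) ∈ T := h1
        rwa [hφL x hx] at h2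
      · rintro ⟨⟨x, ⟨hx, hxT⟩, rfl⟩, h2⟩
        refine ⟨?_, h2⟩
        change φ (Γ 0 x) ∈ T
        rwa [hφL x hx]
  have hΦφ : ContinuousOn (fun y => Φ (φ y)) K' := by
    apply (hΦU.mono hLU).comp hφc
    rintro _ ⟨x, hx, rfl⟩
    rw [hφL x hx]
    exact hx
  set η : ℝ := c * ε / 2 with hη
  have hη0 : 0 < η := by positivity
  obtain ⟨C, Θ, hΘ, hΘη⟩ := exists_lip hK'c hΦφ hη0
  -- the average
  set Ξ : V → V × (Fin m → ℝ) := fun x => ∫ a, Θ (Γ (j a) x) ∂ν with hΞ
  have hΓc : Continuous (fun q : D.U × A => Γ (j q.2) q.1) := by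
    have h1 : Continuous (fun q : D.U × A => (j q.2, (q.1 : V))) := by fun_prop
    exact hc.comp_continuous h1 (fun q => ⟨mem_univ _, q.1.2⟩)
  have hcx : ∀ x ∈ D.U, Continuous (fun a : A => Θ (Γ (j a) x)) := by
    intro x hx
    have h1 : Continuous (fun a : A => ((⟨x, hx⟩ : D.U), a)) := by fun_prop
    exact hΘ.continuous.comp (hΓc.comp h1)
  have hintx : ∀ x ∈ D.U, Integrable (fun a : A => Θ (Γ (j a) x)) ν := by
    intro x hx
    exact (hcx x hx).integrable_of_hasCompactSupport (HasCompactSupport.of_compactSpace _)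
  have hΞc : ContinuousOn Ξ D.U := by
    rw [continuousOn_iff_continuous_domRestrict]
    have : LocallyCompactSpace D.U := D.hU.locallyCompactSpace
    have h1 := continuous_parametric_integral_of_continuous (μ := ν)
      (f := fun (x : D.U) (a : A) => Θ (Γ (j a) x)) (hΘ.continuous.comp hΓc) isCompact_univ
    simp only [Measure.restrict_univ] at h1
    exact h1
  have hΞK : ∀ b ∈ K, ∀ x ∈ D.U, Ξ (D.g b x) = Ξ x := by
    intro b hb x hx
    obtain ⟨b', rfl⟩ := (hjK b).1 hb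
    have h1 : ∀ a, Γ (j a) (D.g (j b') x) = Γ (j (a + b')) x := by
      intro a
      rw [hg _ _ x hx, map_add]
    simp only [hΞ, h1]
    exact integral_add_right_eq_self (fun a => Θ (Γ (j a) x)) b'
  have hclose : ∀ x ∈ L, ‖Ξ x - Φ x‖ ≤ η := by
    intro x hx
    apply norm_integral_sub_le ν (hintx x (hLU hx))
    intro a
    have h1 : Γ (j a) x = Γ 0 (D.g (j a) x) := by
      rw [hg _ _ x (hLU hx), zero_add]
    have h2 := hLK x hx (j a) (hjmem a)
    have h3 := hΘη (Γ 0 (D.g (j a) x)) ⟨_, h2, rfl⟩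
    rw [hφL _ h2, hΦK _ (hjmem a) x (hLU hx)] at h3
    rw [h1]
    exact h3
  -- the image is null
  set Z₁ : Set V := closedBall x₀ (ρ / 2) ∩ Z with hZ₁
  have hZ₁U : Z₁ ⊆ D.U := inter_subset_right.trans hZU
  have hnull : (Measure.addHaar : Measure (V × (Fin m → ℝ))) (Ξ '' Z₁) = 0 := by
    apply thin_null Measure.addHaar _ hN0 (hthin.mono inter_subset_right) hΘ
      (fun x hx => hintx x (hZ₁U hx))
    rw [Module.finrank_prod, Module.finrank_fin_fun]
  obtain ⟨z', hz', hz'Z⟩ : ∃ z' ∈ ball z η, z' ∉ Ξ '' Z₁ := by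
    by_contra hcon
    push Not at hcon
    have h1 : (Measure.addHaar : Measure (V × (Fin m → ℝ))) (ball z η) ≤
        (Measure.addHaar : Measure (V × (Fin m → ℝ))) (Ξ '' Z₁) := measure_mono hcon
    rw [hnull] at h1
    exact absurd h1 (not_le.mpr (measure_ball_pos _ z hη0))
  -- the perturbation
  set δ : V → V × (Fin m → ℝ) := fun x =>
    if x ∈ D.U then lam x • (Ξ x + (z - z') - Φ x) else 0 with hδ
  have hδc : Continuous δ := by
    rw [continuous_iff_continuousAt]
    intro x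
    by_cases hx : x ∈ D.U
    · have h5 : ContinuousOn (fun x => lam x • (Ξ x + (z - z') - Φ x)) D.U :=
        hl1.continuousOn.smul ((hΞc.add continuousOn_const).sub hΦU)
      apply (h5.continuousAt (D.hU.mem_nhds hx)).congr
      filter_upwards [D.hU.mem_nhds hx] with q hq
      simp only [hδ]
      rw [if_pos hq]
    · have hxL : x ∉ L := fun h => hx (hLU h)
      apply (continuousAt_const (y := (0 : V × (Fin m → ℝ)))).congr
      filter_upwards [hLc.isClosed.isOpen_compl.mem_nhds hxL] with q hq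
      simp only [hδ]
      split_ifs with h
      · rw [hl6 q hq, zero_smul]
      · rfl
  have hδi : Inv D K δ := by
    intro b hb x hx
    simp only [hδ]
    rw [if_pos (D.hgU b x hx), if_pos hx, hl2 b hb x hx, hΞK b hb x hx, hΦK b hb x hx]
  have hδ0 : ∀ x ∉ L, δ x = 0 := by
    intro x hx
    simp only [hδ]
    split_ifs with h
    · rw [hl6 x hx, zero_smul]
    · rfl
  have hδε : ∀ x, ‖δ x‖ ≤ c * ε := by
    intro x
    by_cases hx : x ∈ L
    · simp only [hδ]
      rw [if_pos (hLU hx), norm_smul, Real.norm_of_nonneg (hl3 x)]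
      have e1 : Ξ x + (z - z') - Φ x = (Ξ x - Φ x) + (z - z') := by abel
      have h3 : ‖Ξ x + (z - z') - Φ x‖ ≤ c * ε := by
        rw [e1]
        refine (norm_add_le _ _).trans ?_
        have h4 := hclose x hx
        rw [mem_ball, dist_comm, dist_eq_norm] at hz'
        rw [hη] at h4 hz'
        linarith
      calc lam x * ‖Ξ x + (z - z') - Φ x‖ ≤ 1 * (c * ε) :=
            mul_le_mul (hl4 x) h3 (norm_nonneg _) zero_le_one
        _ = c * ε := one_mul _
    · rw [hδ0 x hx, norm_zero]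
      positivity
  have hNsub : closedBall x₀ (ρ / 2) ⊆ closedBall x₀ ρ :=
    closedBall_subset_closedBall (by linarith)
  obtain ⟨Ψ, h1, h2, h3, h4⟩ := exists_spread D hK hKH hδc hδi hLc hLU hδ0
    (N := closedBall x₀ (ρ / 2)) (hNsub.trans hρU) (by
      intro x hx a ha hmem
      obtain ⟨⟨b, x'⟩, ⟨hb, hx'⟩, heq⟩ := hmem
      exact hsep x (hNsub hx) x' hx' a ha b hb heq.symm) hc0 hc' hε hδε
  refine ⟨Ψ, h1, h2, h3, ?_⟩
  rintro x ⟨hxN, hxZ⟩ heq
  have hxU : x ∈ D.U := hZU hxZ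
  rw [h4 x hxN] at heq
  simp only [hδ] at heq
  rw [if_pos hxU, hl5 x hxN, one_smul] at heq
  apply hz'Z
  refine ⟨x, ⟨hxN, hxZ⟩, ?_⟩
  have e1 : Φ x + (Ξ x + (z - z') - Φ x) = Ξ x + (z - z') := by abel
  rw [e1] at heq
  have e2 : Ξ x = z - (z - z') := eq_sub_of_add_eq heq
  rw [e2]
  abel

end Pool.Agent.Helper83.IO
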