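import Pool.Agent.Helper83.IO.Defs
import Pool.Agent.Helper83.IO.Local

/-!
# Thin sets and sets of finite orbits are negligible for actions of the `p`-adic integers
-/

set_option autoImplicit false
set_option linter.unusedSectionVars false
set_option linter.unusedVariables false

open Set MeasureTheory Metric Filter Topology
open scoped NNReal ENNReal

namespace Pool.Agent.Helper83.IO

open Pool.Agent.Helper3.HS Pool.Agent.HS3

section

variable {p : ℕ} [hp : Fact p.Prime]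

/-- The subgroup of the multiples of `p ^ k`. -/
def mulP (p : ℕ) [hp : Fact p.Prime] (k : ℕ) : AddSubgroup ℤ_[p] where
  carrier := {a | (p : ℤ_[p]) ^ k ∣ a}
  add_mem' := fun ha hb => dvd_add ha hb
  zero_mem' := dvd_zero _
  neg_mem' := fun ha => (dvd_neg).2 ha

theorem mem_mulP {k : ℕ} {a : ℤ_[p]} : a ∈ mulP p k ↔ (p : ℤ_[p]) ^ k ∣ a := Iff.rfl

theorem isOpen_mulP (k : ℕ) : IsOpen ((mulP p k : AddSubgroup ℤ_[p]) : Set ℤ_[p]) :=
  isOpen_dvd k

/-- Multiplication by `p ^ k`. -/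
noncomputable def mulHom (p : ℕ) [hp : Fact p.Prime] (k : ℕ) : ℤ_[p] →+ ℤ_[p] :=
  AddMonoidHom.mulLeft ((p : ℤ_[p]) ^ k)

theorem mulHom_apply (k : ℕ) (a : ℤ_[p]) : mulHom p k a = (p : ℤ_[p]) ^ k * a := rfl

theorem continuous_mulHom (k : ℕ) : Continuous (mulHom p k) := by
  change Continuous (fun a : ℤ_[p] => (p : ℤ_[p]) ^ k * a)
  fun_prop

theorem mem_mulP_iff (k : ℕ) (b : ℤ_[p]) : b ∈ mulP p k ↔ ∃ a, mulHom p k a = b := by
  rw [mem_mulP]
  constructor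
  · rintro ⟨a, rfl⟩
    exact ⟨a, rfl⟩
  · rintro ⟨a, rfl⟩
    exact ⟨a, rfl⟩

theorem mulHom_isOpenEmbedding (k : ℕ) : IsOpenEmbedding (mulHom p k) := by
  have hinj : Function.Injective (mulHom p k) := by
    intro a b hab
    have h0 : (p : ℤ_[p]) ^ k ≠ 0 := pow_ne_zero _ (by exact_mod_cast hp.out.ne_zero)
    exact mul_left_cancel₀ h0 hab
  have hemb : IsClosedEmbedding (mulHom p k) := (continuous_mulHom k).isClosedEmbedding hinj
  refine ⟨hemb.isEmbedding, ?_⟩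
  have : range (mulHom p k) = ((mulP p k : AddSubgroup ℤ_[p]) : Set ℤ_[p]) := by
    ext b
    rw [SetLike.mem_coe, mem_mulP_iff]
    rfl
  rw [this]
  exact isOpen_mulP k

/-- The scaling of the Haar measure by `p ^ k`. -/
theorem lintegral_mul_le [MeasurableSpace ℤ_[p]] [BorelSpace ℤ_[p]] (ν : Measure ℤ_[p])
    [ν.IsAddHaarMeasure] [IsProbabilityMeasure ν] (k : ℕ) :
    ∃ c : ℝ≥0∞, c ≠ ⊤ ∧ ∀ f : ℤ_[p] → ℝ≥0∞, Measurable f →
      ∫⁻ a, f ((p : ℤ_[p]) ^ k * a) ∂ν ≤ c * ∫⁻ a, f a ∂ν := by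
  have hemb := mulHom_isOpenEmbedding (p := p) k
  have hme : MeasurableEmbedding (mulHom p k) := hemb.measurableEmbedding
  have hcomap : (ν.comap (mulHom p k)).IsAddHaarMeasure :=
    Measure.IsAddHaarMeasure.comap (mH := inferInstance) ν hemb
  set c : ℝ≥0 := Measure.addHaarScalarFactor (ν.comap (mulHom p k)) ν with hc
  have h1 : ν.comap (mulHom p k) = c • ν :=
    Measure.isAddLeftInvariant_eq_smul _ _
  have hc0 : c ≠ 0 := by
    intro h0
    rw [h0, zero_smul] at h1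
    have h2 : (ν.comap (mulHom p k)) univ = 0 := by rw [h1]; rfl
    exact (isOpen_univ.measure_ne_zero (ν.comap (mulHom p k)) univ_nonempty) h2
  refine ⟨(c : ℝ≥0∞)⁻¹, ENNReal.inv_ne_top.2 (by exact_mod_cast hc0), ?_⟩
  intro f hf
  have h3 : ∫⁻ a, f (mulHom p k a) ∂(ν.comap (mulHom p k)) =
      (c : ℝ≥0∞) * ∫⁻ a, f (mulHom p k a) ∂ν := by
    rw [h1, lintegral_smul_measure]
    rfl
  have h4 : ∫⁻ a, f (mulHom p k a) ∂(ν.comap (mulHom p k)) ≤ ∫⁻ a, f a ∂ν := by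
    rw [← hme.lintegral_map, hme.map_comap]
    exact setLIntegral_le_lintegral _ _
  have hc0' : (c : ℝ≥0∞) ≠ 0 := by exact_mod_cast hc0
  calc ∫⁻ a, f ((p : ℤ_[p]) ^ k * a) ∂ν
      = (c : ℝ≥0∞)⁻¹ * ((c : ℝ≥0∞) * ∫⁻ a, f (mulHom p k a) ∂ν) := by
        rw [← mul_assoc, ENNReal.inv_mul_cancel hc0' ENNReal.coe_ne_top, one_mul]
        rfl
    _ ≤ (c : ℝ≥0∞)⁻¹ * ∫⁻ a, f a ∂ν := by
        rw [← h3]
        gcongr

/-- Thin along a subgroup implies thin along smaller subgroups. -/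
theorem ThinFam.up {X Y : Type*} [PseudoEMetricSpace Y] [MeasurableSpace ℤ_[p]]
    [BorelSpace ℤ_[p]] {ν : Measure ℤ_[p]} [ν.IsAddHaarMeasure] [IsProbabilityMeasure ν]
    {Γ : ℤ_[p] → X → Y} {l N : ℕ} {Z : Set X} (h : ThinFam ν Γ l N Z) (k : ℕ) :
    ThinFam ν Γ (l + k) N Z := by
  intro ε hε
  obtain ⟨c, hct, hc⟩ := lintegral_mul_le ν k
  obtain ⟨ε', hε', hcε⟩ : ∃ ε' : ℝ≥0∞, 0 < ε' ∧ c * ε' ≤ ε := by
    rcases eq_or_ne c 0 with h0 | h0
    · exact ⟨1, zero_lt_one, by rw [h0, zero_mul]; exact zero_le⟩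
    · refine ⟨c⁻¹ * ε, ENNReal.mul_pos (ENNReal.inv_ne_zero.2 hct) hε.ne', ?_⟩
      rw [← mul_assoc, ENNReal.mul_inv_cancel h0 hct, one_mul]
  obtain ⟨E, ρ, h1, h2, h3, h4⟩ := h ε' hε'
  have hm : Measurable (fun a : ℤ_[p] => (p : ℤ_[p]) ^ k * a) :=
    (continuous_mulHom (p := p) k).measurable
  refine ⟨E, fun i a => ρ i ((p : ℤ_[p]) ^ k * a), h1, fun i => (h2 i).comp hm, ?_, ?_⟩
  · intro i a
    have e : (p : ℤ_[p]) ^ (l + k) * a = (p : ℤ_[p]) ^ l * ((p : ℤ_[p]) ^ k * a) := by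
      rw [pow_add, mul_assoc]
    rw [e]
    exact h3 i _
  · calc ∑' i, ∫⁻ a, (ρ i ((p : ℤ_[p]) ^ k * a)) ^ N ∂ν
        ≤ ∑' i, c * ∫⁻ a, (ρ i a) ^ N ∂ν :=
          ENNReal.tsum_le_tsum fun i => hc (fun a => (ρ i a) ^ N) ((h2 i).pow_const N)
      _ = c * ∑' i, ∫⁻ a, (ρ i a) ^ N ∂ν := ENNReal.tsum_mul_left
      _ ≤ c * ε' := by gcongr
      _ ≤ ε := hcε

end

variable {V : Type*} [NormedAddCommGroup V] [NormedSpace ℝ V] [FiniteDimensional ℝ V]
  [MeasurableSpace V] [BorelSpace V] {p : ℕ} [hp : Fact p.Prime]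

/-- The action as an action of a compact abelian group. -/
def ofPre (D : PreDat V p) : GA ℤ_[p] V where
  U := D.U
  g := D.g
  hU := D.hU
  hUb := D.hUb
  hg := D.hg
  hgj := D.hgj
  hgU := D.hgU
  hg0 := D.hg0
  hgadd := D.hgadd

/-- The subgroup of the level function. -/
def lev (p : ℕ) [hp : Fact p.Prime] : Fin 1 → AddSubgroup ℤ_[p] := fun _ => mulP p 1

/-- The two forms of the property of being movable. -/
theorem mv2_of_mvP {D : PreDat V p} {y : V} {t : ℝ} {Z : Set V}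
    (h : MvP (ofPre D) (lev p) (y, fun _ => t) Z) : Mv2 D y t Z := by
  intro F w hF hw hFi hwi ε hε
  obtain ⟨Ψ, h1, h2, h3, h4⟩ := h (fun x => (F x, fun _ => w x))
    (hF.prodMk (continuousOn_pi.2 fun _ => hw)) ⟨fun a _ x hx => hFi a x hx, fun i a ha x hx => by
      obtain ⟨b, rfl⟩ := ha
      rw [pow_one]
      exact hwi b x hx⟩ ε hε
  refine ⟨fun x => (Ψ x).1, fun x => (Ψ x).2 0, continuous_fst.comp h1,
    (continuous_apply 0).comp (continuous_snd.comp h1), fun a x hx => h2.1 a (AddSubgroup.mem_top a)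
      x hx, fun a x hx => h2.2 0 (p * a) ⟨a, by rw [pow_one]⟩ x hx,
    fun x => (norm_fst_le (Ψ x)).trans (h3 x), fun x => ?_, ?_⟩
  · exact ((norm_le_pi_norm (Ψ x).2 0).trans (norm_snd_le (Ψ x))).trans (h3 x)
  · rintro x hx ⟨e1, e2⟩
    apply h4 x hx
    apply Prod.ext
    · exact e1
    · funext i
      rw [Subsingleton.elim i 0]
      exact e2

theorem mvP_of_mv2 {D : PreDat V p} {y : V} {t : ℝ} {Z : Set V} (h : Mv2 D y t Z) :
    MvP (ofPre D) (lev p) (y, fun _ => t) Z := by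
  intro Φ hΦ hi ε hε
  obtain ⟨ψ, χ, h1, h2, h3, h4, h5, h6, h7⟩ := h (fun x => (Φ x).1) (fun x => (Φ x).2 0)
    (continuous_fst.comp_continuousOn hΦ)
    ((continuous_apply 0).comp_continuousOn (continuous_snd.comp_continuousOn hΦ))
    (fun a x hx => hi.1 a (AddSubgroup.mem_top a) x hx)
    (fun a x hx => hi.2 0 (p * a) ⟨a, by rw [pow_one]⟩ x hx) ε hε
  refine ⟨fun x => (ψ x, fun _ => χ x), h1.prodMk (continuous_pi fun _ => h2),
    ⟨fun a _ x hx => h3 a x hx, fun i a ha x hx => ?_⟩, ?_, ?_⟩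
  · obtain ⟨b, rfl⟩ := ha
    rw [pow_one]
    exact h4 b x hx
  · intro x
    rw [Prod.norm_def]
    apply max_le (h5 x)
    simp only
    rw [pi_norm_le_iff_of_nonneg hε.le]
    intro i
    exact h6 x
  · intro x hx heq
    exact h7 x hx ⟨congrArg Prod.fst heq, congrFun (congrArg Prod.snd heq) 0⟩

theorem Mv2.union {D : PreDat V p} {y : V} {t : ℝ} {Z Z' : Set V} (hZ : IsCompact Z)
    (hZU : Z ⊆ D.U) (h : Mv2 D y t Z) (h' : Mv2 D y t Z') : Mv2 D y t (Z ∪ Z') :=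
  mv2_of_mvP (MvP.union hZ hZU (mvP_of_mv2 h) (mvP_of_mv2 h'))

/-- The translates of negligible sets are negligible. -/
theorem Mv2.image {D : PreDat V p} {y : V} {t : ℝ} {Z : Set V} (hZU : Z ⊆ D.U)
    (h : Mv2 D y t Z) (j : ℤ_[p]) : Mv2 D y t (D.g j '' Z) := by
  intro F w hF hw hFi hwi ε hε
  have hcl : MapsTo (D.g j) (closure D.U) (closure D.U) := by
    have h1 : MapsTo (D.g j) D.U D.U := fun x hx => D.hgU j x hx
    exact h1.closure (D.hg j)
  have hcomm : ∀ a b, ∀ x ∈ D.U, D.g a (D.g b x) = D.g b (D.g a x) := by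
    intro a b x hx
    rw [← D.hgadd a b x hx, ← D.hgadd b a x hx, add_comm]
  obtain ⟨ψ, χ, h1, h2, h3, h4, h5, h6, h7⟩ := h F (fun x => w (D.g j x)) hF
    (hw.comp (D.hg j).continuousOn hcl) hFi (fun a x hx => by
      rw [hcomm j (p * a) x hx]
      exact hwi a _ (D.hgU j x hx)) ε hε
  refine ⟨ψ, fun x => χ (D.g (-j) x), h1, h2.comp (D.hg _), h3, fun a x hx => ?_, h5,
    fun x => h6 _, ?_⟩
  · simp only
    rw [hcomm (-j) (p * a) x hx]
    exact h4 a _ (D.hgU _ x hx)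
  · rintro _ ⟨x, hx, rfl⟩ ⟨e1, e2⟩
    have hxU := hZU hx
    simp only [D.inv j hxU] at e2
    rw [hFi j x hxU, h3 j x hxU] at e1
    exact h7 x hx ⟨e1, e2⟩

/-- **Sets of finite orbits are negligible.** -/
theorem mv2_fin (D : PreDat V p) (k : ℕ) {Z : Set V} (hZ : IsCompact Z) (hZU : Z ⊆ D.U)
    (hfin : ∀ x ∈ Z, ∀ a, D.g ((p : ℤ_[p]) ^ k * a) x = x) (y : V) (t : ℝ) : Mv2 D y t Z := by
  apply mv2_of_mvP
  apply mvP_fin 0 (isOpen_mulP k) hZ hZU
  rintro x hx _ ⟨a, rfl⟩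
  exact hfin x hx a

/-- **Thin sets are negligible.** -/
theorem mv2_thin [MeasurableSpace ℤ_[p]] [BorelSpace ℤ_[p]] (ν : Measure ℤ_[p])
    [ν.IsAddHaarMeasure] [IsProbabilityMeasure ν] (D : PreDat V p) {Y : Type*} [MetricSpace Y]
    (Γ : ℤ_[p] → V → Y)
    (hc : ContinuousOn (fun q : ℤ_[p] × V => Γ q.1 q.2) (univ ×ˢ D.U))
    (hg : ∀ a b, ∀ u ∈ D.U, Γ a (D.g b u) = Γ (a + b) u) (hinj : InjOn (Γ 0) D.U)
    {Z : Set V} (hZ : IsCompact Z) (hZU : Z ⊆ D.U) (l : ℕ)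
    (hthin : ThinFam ν Γ l (Module.finrank ℝ V + 1) Z) (y : V) (t : ℝ) : Mv2 D y t Z := by
  apply mv2_of_mvP
  -- we may assume that `l ≥ 1`
  have hthin' : ThinFam ν Γ (l + 1) (Module.finrank ℝ V + 1) Z := hthin.up 1
  set k : ℕ := l + 1 with hk
  set Z₁ : Set V := {x | x ∈ Z ∧ ∀ a : ℤ_[p], D.g ((p : ℤ_[p]) ^ k * a) x = x} with hZ₁
  have hZ₁c : IsCompact Z₁ := by
    have h1 : Z₁ = Z ∩ ⋂ a : ℤ_[p], {x | D.g ((p : ℤ_[p]) ^ k * a) x = x} := by
      ext x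
      simp [hZ₁]
    rw [h1]
    apply hZ.inter_right
    exact isClosed_iInter fun a => isClosed_eq (D.hg _) continuous_id
  have hZ₁Z : Z₁ ⊆ Z := fun x hx => hx.1
  have hmv₁ : MvP (ofPre D) (lev p) (y, fun _ => t) Z₁ :=
    mvP_of_mv2 (mv2_fin D k hZ₁c (hZ₁Z.trans hZU) (fun x hx => hx.2) y t)
  have hres : MvP (ofPre D) (lev p) (y, fun _ => t) (Z₁ ∪ Z) := by
    apply MvP.union' hZ₁c (hZ₁Z.trans hZU) hmv₁
    intro Φ hΦ hΦi hne ε hε
    obtain ⟨r, hr, hgap⟩ := exists_gap hZ₁c (hΦ.mono ((hZ₁Z.trans hZU).trans subset_closure)) hne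
    set Z₂ : Set V := {x | x ∈ Z ∧ dist (Φ x) (y, fun _ => t) ≤ 2 * r} with hZ₂
    have hZ₂Z : Z₂ ⊆ Z := fun x hx => hx.1
    have hZ₂c : IsCompact Z₂ := by
      have h5 : ContinuousOn (fun x => dist (Φ x) (y, fun _ => t)) Z :=
        (continuous_id.dist continuous_const).comp_continuousOn
          (hΦ.mono (hZU.trans subset_closure))
      have h6 : Z₂ = Z ∩ (fun x => dist (Φ x) (y, fun _ => t)) ⁻¹' (Iic (2 * r)) := rfl
      rw [h6]
      exact hZ.of_isClosed_subset (h5.preimage_isClosed_of_isClosed hZ.isClosed isClosed_Iic)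
        inter_subset_left
    have hmv₂ : MvP (ofPre D) (lev p) (y, fun _ => t) Z₂ := by
      apply MvP.of_local hZ₂c (hZ₂Z.trans hZU)
      intro x₀ hx₀
      have hx₀U : x₀ ∈ D.U := hZU (hZ₂Z hx₀)
      have hnot : ∃ b : ℤ_[p], D.g ((p : ℤ_[p]) ^ k * b) x₀ ≠ x₀ := by
        by_contra hcon
        push Not at hcon
        have h7 := hgap x₀ ⟨hx₀.1, hcon⟩
        have h8 := hx₀.2
        linarith
      apply thin_local (D := ofPre D) (H := lev p) (Γ := Γ) (ν := ν) hc hg hinj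
        (K := mulP p k) (isOpen_mulP k) _ (j := mulHom p k) (continuous_mulHom k)
        (mem_mulP_iff k) (hZ₂Z.trans hZU) (Nat.succ_ne_zero _) _ hx₀U _
      · intro i a ha
        exact (pow_dvd_pow _ (by omega)).trans ha
      · have h9 : Thin ν (fun a x => Γ (mulHom p k a) x) (Module.finrank ℝ V + 1) Z := hthin'
        exact h9.mono hZ₂Z
      · intro a ha
        apply moved_outside D hx₀U hnot
        intro h
        exact ha ((pow_dvd_pow _ (Nat.le_succ k)).trans h)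
    obtain ⟨Ψ, h5, h6, h7, h8⟩ := hmv₂ Φ hΦ hΦi (min ε r) (lt_min hε hr)
    refine ⟨Ψ, h5, h6, fun x => (h7 x).trans (min_le_left _ _), ?_⟩
    intro x hx heq
    by_cases hx2 : dist (Φ x) (y, fun _ => t) ≤ 2 * r
    · exact h8 x ⟨hx, hx2⟩ heq
    · apply hx2
      rw [← heq, dist_self_add_right]
      have := (h7 x).trans (min_le_right _ _)
      linarith
  exact hres.mono subset_union_right

end Pool.Agent.Helper83.IO
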