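import Pool.Agent.Helper83.IO.GA

/-!
# Moving an invariant pair off a value on a compact set of points of finite type
-/

set_option autoImplicit false
set_option linter.unusedSectionVars false
set_option linter.unusedVariables false

open Set MeasureTheory Metric Filter Topology
open scoped NNReal ENNReal

namespace Pool.Agent.Helper83.IO

open Pool.Agent.Helper3.HS

variable {G : Type*} [AddCommGroup G] [TopologicalSpace G] [IsTopologicalAddGroup G]
  [CompactSpace G]
  {V : Type*} [NormedAddCommGroup V] [NormedSpace ℝ V] [FiniteDimensional ℝ V]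
  [MeasurableSpace V] [BorelSpace V] {μ : Measure V} [μ.IsAddHaarMeasure]
  {W : Type*} [NormedAddCommGroup W] [NormedSpace ℝ W] [FiniteDimensional ℝ W]

/-! ### Maps -/

/-- The property that maps can be moved off `y` on `Z` by small invariant perturbations. -/
def MvG (D : GA G V) (y : V) (Z : Set V) : Prop :=
  ∀ F : V → V, ContinuousOn F (closure D.U) → ∀ ε : ℝ, 0 < ε →
    ∃ ψ : V → V, Continuous ψ ∧ Inv D ⊤ ψ ∧ (∀ x, ‖ψ x‖ ≤ ε) ∧ ∀ x ∈ Z, F x + ψ x ≠ y

theorem MvG.mono {D : GA G V} {y : V} {Z Z' : Set V} (h : MvG D y Z') (hZ : Z ⊆ Z') :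
    MvG D y Z := by
  intro F hF ε hε
  obtain ⟨ψ, h1, h2, h3, h4⟩ := h F hF ε hε
  exact ⟨ψ, h1, h2, h3, fun x hx => h4 x (hZ hx)⟩

theorem MvG.empty (D : GA G V) (y : V) : MvG D y ∅ := by
  intro F hF ε hε
  exact ⟨fun _ => 0, continuous_const, fun _ _ _ _ => rfl, fun _ => by simpa using hε.le,
    fun x hx => hx.elim⟩

theorem Inv.add {D : GA G V} {H : AddSubgroup G} {f g : V → W} (hf : Inv D H f)
    (hg : Inv D H g) : Inv D H (fun x => f x + g x) := by
  intro a ha x hx
  simp only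
  rw [hf a ha x hx, hg a ha x hx]

theorem MvG.union {D : GA G V} {y : V} {Z Z' : Set V} (hZ : IsCompact Z) (hZU : Z ⊆ D.U)
    (h : MvG D y Z) (h' : MvG D y Z') : MvG D y (Z ∪ Z') := by
  intro F hF ε hε
  obtain ⟨ψ₁, h1, h2, h3, h4⟩ := h F hF (ε / 2) (half_pos hε)
  have hF1 : ContinuousOn (fun x => F x + ψ₁ x) (closure D.U) := hF.add h1.continuousOn
  obtain ⟨r, hr, hgap⟩ := exists_gap hZ (hF1.mono (hZU.trans subset_closure)) (y := y) h4
  obtain ⟨ψ₂, h5, h6, h7, h8⟩ := h' _ hF1 (min (ε / 2) r) (lt_min (half_pos hε) hr)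
  refine ⟨fun x => ψ₁ x + ψ₂ x, h1.add h5, h2.add h6, fun x => ?_, ?_⟩
  · calc ‖ψ₁ x + ψ₂ x‖ ≤ ‖ψ₁ x‖ + ‖ψ₂ x‖ := norm_add_le _ _
      _ ≤ ε / 2 + ε / 2 := add_le_add (h3 x) ((h7 x).trans (min_le_left _ _))
      _ = ε := add_halves ε
  · rintro x (hx | hx) heq
    · have h9 := hgap x hx
      have h10 : dist (F x + ψ₁ x) y ≤ r := by
        rw [← heq, ← add_assoc, dist_self_add_right]
        exact (h7 x).trans (min_le_right _ _)
      linarith
    · apply h8 x hx
      rw [add_assoc]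
      exact heq

/-- Local to global. -/
theorem MvG.of_local {D : GA G V} {y : V} {Z : Set V} (hZ : IsCompact Z) (hZU : Z ⊆ D.U)
    (h : ∀ x ∈ Z, ∃ N ∈ 𝓝 x, IsClosed N ∧ MvG D y (N ∩ Z)) : MvG D y Z := by
  have h1 : ∃ K : Set V, IsCompact K ∧ K ⊆ D.U ∧ Z ⊆ K ∧ MvG D y K := by
    apply hZ.induction_on (p := fun s => ∃ K : Set V, IsCompact K ∧ K ⊆ D.U ∧ s ⊆ K ∧ MvG D y K)
    · exact ⟨∅, isCompact_empty, empty_subset _, Subset.rfl, MvG.empty D y⟩
    · rintro s t hst ⟨K, h1, h2, h3, h4⟩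
      exact ⟨K, h1, h2, hst.trans h3, h4⟩
    · rintro s t ⟨K, h1, h2, h3, h4⟩ ⟨K', h1', h2', h3', h4'⟩
      exact ⟨K ∪ K', h1.union h1', union_subset h2 h2', union_subset_union h3 h3',
        MvG.union h1 h2 h4 h4'⟩
    · intro x hx
      obtain ⟨N, hN, hNc, hMv⟩ := h x hx
      refine ⟨N ∩ Z, inter_mem (mem_nhdsWithin_of_mem_nhds hN) self_mem_nhdsWithin, N ∩ Z,
        hZ.inter_left hNc, inter_subset_right.trans hZU, Subset.rfl, hMv⟩
  obtain ⟨K, -, -, h3, h4⟩ := h1
  exact h4.mono h3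

/-- **The local step.** -/
theorem mvG_local (μ : Measure V) [μ.IsAddHaarMeasure] (D : GA G V) (y : V) {Z : Set V}
    (hZ0 : μ Z = 0) {S : Set G} (hSo : IsOpen S) (hS0 : (0 : G) ∈ S)
    (hfin : ∀ x ∈ Z, ∀ a ∈ S, D.g a x = x)
    {x₀ : V} (hx₀ : x₀ ∈ D.U) (hm : ∀ a, a ∉ S → D.g a x₀ ≠ x₀) :
    ∃ N ∈ 𝓝 x₀, IsClosed N ∧ MvG D y (N ∩ Z) := by
  classical
  have : ProperSpace V := FiniteDimensional.proper ℝ V
  let _ : MeasurableSpace G := borel G
  have : BorelSpace G := ⟨rfl⟩
  set ν : Measure G :=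
    Measure.addHaarMeasure (⊤ : TopologicalSpace.PositiveCompacts G) with hν
  have hprob : IsProbabilityMeasure ν := by
    constructor
    have := Measure.addHaarMeasure_self (K₀ := (⊤ : TopologicalSpace.PositiveCompacts G))
    simpa using this
  have hSc : IsCompact Sᶜ := hSo.isClosed_compl.isCompact
  -- the translates outside `S` stay away from `x₀`
  have hKc : IsCompact ((fun a : G => D.g a x₀) '' Sᶜ) := hSc.image (D.continuous_orbit hx₀)
  have hKx : x₀ ∉ (fun a : G => D.g a x₀) '' Sᶜ := by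
    rintro ⟨a, ha, hax⟩
    exact hm a ha hax
  obtain ⟨ρ, hρ, hρK⟩ : ∃ ρ : ℝ, 0 < ρ ∧ closedBall x₀ ρ ⊆
      D.U ∩ ((fun a : G => D.g a x₀) '' Sᶜ)ᶜ := by
    have h1 : D.U ∩ ((fun a : G => D.g a x₀) '' Sᶜ)ᶜ ∈ 𝓝 x₀ :=
      inter_mem (D.hU.mem_nhds hx₀) (hKc.isClosed.isOpen_compl.mem_nhds hKx)
    obtain ⟨ρ, hρ, h⟩ := Metric.nhds_basis_closedBall.mem_iff.mp h1
    exact ⟨ρ, hρ, h⟩
  have hρU : closedBall x₀ ρ ⊆ D.U := fun x hx => (hρK hx).1
  have hev : ∀ᶠ x in 𝓝 x₀, ∀ a ∈ Sᶜ, D.g a x ∉ closedBall x₀ ρ := by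
    apply hSc.eventually_forall_of_forall_eventually
    intro a ha
    have h3 : D.g a x₀ ∉ closedBall x₀ ρ := fun h => (hρK h).2 ⟨a, ha, rfl⟩
    exact (D.continuousAt_swap hx₀ a).preimage_mem_nhds
      (isClosed_closedBall.isOpen_compl.mem_nhds h3)
  obtain ⟨ρ', hρ', hball⟩ := Metric.nhds_basis_closedBall.mem_iff.mp
    (inter_mem hev (ball_mem_nhds x₀ hρ))
  refine ⟨closedBall x₀ ρ', closedBall_mem_nhds _ hρ', isClosed_closedBall, ?_⟩
  intro F hF ε hε
  obtain ⟨F', hF'c, hF'⟩ := exists_tietze isClosed_closure hF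
  -- the measure of `S`
  set c : ℝ := (ν S).toReal with hc
  have hc0 : 0 < c := ENNReal.toReal_pos
    (hSo.measure_pos ν ⟨0, hS0⟩).ne' (measure_ne_top ν S)
  set δ : ℝ := c * ε / 2 with hδ
  have hδ0 : 0 < δ := by positivity
  -- the approximation
  obtain ⟨T, hT, hTF⟩ := exists_approx (V := V) isClosed_univ hF'c.continuousOn hδ0
  have hTZ : μ (T '' Z) = 0 := addHaar_image_eq_zero_of_differentiableOn_of_addHaar_eq_zero μ
    (hT.differentiable one_ne_zero).differentiableOn hZ0
  obtain ⟨y', hy', hy'Z⟩ : ∃ y' ∈ ball y δ, y' ∉ T '' Z := by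
    by_contra hcon
    push Not at hcon
    have h1 : μ (ball y δ) ≤ μ (T '' Z) := measure_mono hcon
    rw [hTZ] at h1
    exact absurd h1 (not_le.mpr (measure_ball_pos μ y hδ0))
  -- the cutoff
  have hdis : Disjoint (ball x₀ ρ)ᶜ (closedBall x₀ ρ') := by
    rw [Set.disjoint_left]
    intro x hx hx'
    exact hx (hball hx').2
  obtain ⟨lam, hlam1, hlam2, hlam3⟩ := exists_continuous_zero_one_of_isClosed
    isOpen_ball.isClosed_compl isClosed_closedBall hdis
  set ψ₀ : V → V := fun x => lam x • (T x + (y - y') - F' x) with hψ₀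
  have hψ₀c : Continuous ψ₀ :=
    lam.continuous.smul ((hT.continuous.add continuous_const).sub hF'c)
  have hψ₀b : ∀ x, ‖ψ₀ x‖ ≤ c * ε := by
    intro x
    rw [hψ₀]
    simp only
    rw [norm_smul]
    have h1 : ‖lam x‖ ≤ 1 := by
      rw [Real.norm_eq_abs, abs_le]
      have := hlam3 x
      constructor
      · linarith [this.1]
      · exact this.2
    have h2 : ‖T x + (y - y') - F' x‖ ≤ c * ε := by
      have e1 : T x + (y - y') - F' x = (T x - F' x) + (y - y') := by abel
      rw [e1]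
      refine (norm_add_le _ _).trans ?_
      have h3 := hTF x (mem_univ x)
      rw [dist_eq_norm] at h3
      rw [mem_ball, dist_comm, dist_eq_norm] at hy'
      rw [hδ] at h3 hy'
      linarith
    calc ‖lam x‖ * ‖T x + (y - y') - F' x‖ ≤ 1 * (c * ε) :=
          mul_le_mul h1 h2 (norm_nonneg _) zero_le_one
      _ = c * ε := one_mul _
  have hψ₀0 : ∀ x ∉ closedBall x₀ ρ, ψ₀ x = 0 := by
    intro x hx
    have h1 : lam x = 0 := hlam1 (fun h => hx (ball_subset_closedBall h))
    rw [hψ₀]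
    simp only
    rw [h1, zero_smul]
  have htop : IsOpen ((⊤ : AddSubgroup G) : Set G) := by
    rw [AddSubgroup.coe_top]
    exact isOpen_univ
  obtain ⟨A, hA1, hA2, hA3, hA4⟩ := exists_avg D ν htop hψ₀c
    (isCompact_closedBall x₀ ρ) hρU hψ₀0 hψ₀b
  refine ⟨fun x => c⁻¹ • A x, hA1.const_smul _, ?_, ?_, ?_⟩
  · intro a ha x hx
    simp only
    rw [hA2 a ha x hx]
  · intro x
    rw [norm_smul, norm_inv, Real.norm_of_nonneg hc0.le]
    calc c⁻¹ * ‖A x‖ ≤ c⁻¹ * (c * ε) := by gcongr; exact hA3 x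
      _ = ε := by field_simp
  · rintro x ⟨hxN, hxZ⟩ heq
    have hxU : x ∈ D.U := hρU (ball_subset_closedBall (hball hxN).2)
    have h1 : A x = c • ψ₀ x := hA4 x hxU S hSo.measurableSet (by simp)
      (fun a ha => by rw [hfin x hxZ a ha])
      (fun a _ ha => hψ₀0 _ ((hball hxN).1 a ha))
    simp only [h1] at heq
    rw [smul_smul, inv_mul_cancel₀ hc0.ne', one_smul, hψ₀] at heq
    simp only at heq
    have h3 : lam x = 1 := hlam2 hxN
    rw [h3, one_smul, hF' x (subset_closure hxU)] at heq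
    apply hy'Z
    refine ⟨x, hxZ, ?_⟩
    have h4 : T x + (y - y') = y := by
      have e1 : F x + (T x + (y - y') - F x) = T x + (y - y') := by abel
      rw [← e1]
      exact heq
    have h5 : T x = y - (y - y') := eq_sub_of_add_eq h4
    rw [h5]
    abel

/-- **Finite orbits.** -/
theorem mvG_fin (μ : Measure V) [μ.IsAddHaarMeasure] (D : GA G V) (y : V) {L : AddSubgroup G}
    (hL : IsOpen (L : Set G)) {Z : Set V} (hZ : IsCompact Z) (hZU : Z ⊆ D.U) (hZ0 : μ Z = 0)
    (hfin : ∀ x ∈ Z, ∀ a ∈ L, D.g a x = x) : MvG D y Z := by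
  classical
  have : Finite (G ⧸ L) := L.quotient_finite_of_isOpen hL
  have : Fintype (G ⧸ L) := Fintype.ofFinite _
  -- the cosets fixing a point
  set c : V → Finset (G ⧸ L) := fun x => Finset.univ.filter fun q => D.g q.out x = x with hcdef
  have hout : ∀ a : G, ∀ x ∈ D.U, (∀ b ∈ L, D.g b x = x) →
      D.g ((a : G ⧸ L)).out x = D.g a x := by
    intro a x hx hL'
    have h1 : ((a : G ⧸ L)).out - a ∈ L := by
      have h2 : ((((a : G ⧸ L)).out : G) : G ⧸ L) = (a : G ⧸ L) := Quotient.out_eq' _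
      rw [QuotientAddGroup.eq] at h2
      have h3 := L.neg_mem h2
      have e : -(-((a : G ⧸ L)).out + a) = ((a : G ⧸ L)).out - a := by abel
      rwa [e] at h3
    have e : ((a : G ⧸ L)).out = a + (((a : G ⧸ L)).out - a) := by abel
    rw [e, D.hgadd _ _ x hx, hL' _ h1]
  have key : ∀ j k : ℕ, k + j = Fintype.card (G ⧸ L) + 1 → ∀ Z' : Set V, IsCompact Z' →
      Z' ⊆ Z → (∀ x ∈ Z', k ≤ (c x).card) → MvG D y Z' := by
    intro j
    induction j with
    | zero =>
      intro k hk Z' hZ' hZZ hc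
      have h1 : Z' = ∅ := by
        rw [eq_empty_iff_forall_notMem]
        intro x hx
        have h2 := hc x hx
        have h3 : (c x).card ≤ Fintype.card (G ⧸ L) := Finset.card_le_univ _
        omega
      rw [h1]
      exact MvG.empty D y
    | succ j ih =>
      intro k hk Z' hZ' hZZ hc F hF ε hε
      set Z₁ : Set V := {x | x ∈ Z' ∧ k + 1 ≤ (c x).card} with hZ₁
      have hZ₁c : IsCompact Z₁ := by
        have h1 : Z₁ = Z' ∩ ⋃ T ∈ (Finset.univ.filter fun T : Finset (G ⧸ L) => k + 1 ≤ T.card),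
            ⋂ q ∈ T, {x | D.g q.out x = x} := by
          ext x
          simp only [hZ₁, mem_ofPred_eq, mem_inter_iff, Finset.mem_filter, Finset.mem_univ,
            true_and, mem_iUnion, mem_iInter, exists_prop]
          constructor
          · rintro ⟨h1, h2⟩
            refine ⟨h1, c x, h2, ?_⟩
            intro q hq
            exact (Finset.mem_filter.1 hq).2
          · rintro ⟨h1, T, h2, h3⟩
            refine ⟨h1, h2.trans (Finset.card_le_card ?_)⟩
            intro q hq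
            exact Finset.mem_filter.2 ⟨Finset.mem_univ _, h3 q hq⟩
        rw [h1]
        apply hZ'.inter_right
        apply (Finset.finite_toSet _).isClosed_biUnion
        intro T _
        exact isClosed_biInter fun q _ => isClosed_eq (D.hg _) continuous_id
      have hZ₁Z : Z₁ ⊆ Z' := fun x hx => hx.1
      obtain ⟨ψ₁, h1, h2, h3, h4⟩ := ih (k + 1) (by omega) Z₁ hZ₁c (hZ₁Z.trans hZZ)
        (fun x hx => hx.2) F hF (ε / 2) (half_pos hε)
      have hF1 : ContinuousOn (fun x => F x + ψ₁ x) (closure D.U) := hF.add h1.continuousOn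
      obtain ⟨r, hr, hgap⟩ := exists_gap hZ₁c
        (hF1.mono ((hZ₁Z.trans (hZZ.trans hZU)).trans subset_closure)) (y := y) h4
      set Z₂ : Set V := {x | x ∈ Z' ∧ dist (F x + ψ₁ x) y ≤ 2 * r} with hZ₂
      have hZ₂Z : Z₂ ⊆ Z' := fun x hx => hx.1
      have hZ'U : Z' ⊆ D.U := hZZ.trans hZU
      have hZ₂c : IsCompact Z₂ := by
        have h5 : ContinuousOn (fun x => dist (F x + ψ₁ x) y) Z' :=
          (continuous_id.dist continuous_const).comp_continuousOn
            (hF1.mono (hZ'U.trans subset_closure))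
        have h6 : Z₂ = Z' ∩ (fun x => dist (F x + ψ₁ x) y) ⁻¹' (Iic (2 * r)) := rfl
        rw [h6]
        exact hZ'.of_isClosed_subset (h5.preimage_isClosed_of_isClosed hZ'.isClosed isClosed_Iic)
          inter_subset_left
      have hcard : ∀ x ∈ Z₂, (c x).card ≤ k := by
        intro x hx
        by_contra hcon
        push Not at hcon
        have h5 := hgap x ⟨hx.1, hcon⟩
        have h6 := hx.2
        linarith
      have hMv : MvG D y Z₂ := by
        apply MvG.of_local hZ₂c (hZ₂Z.trans hZ'U)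
        intro x₀ hx₀
        have hx₀U : x₀ ∈ D.U := hZ'U (hZ₂Z hx₀)
        have hfx₀ := hfin x₀ (hZZ (hZ₂Z hx₀))
        set S : Set G := {a | D.g a x₀ = x₀} with hS
        have hSc : ∀ a, a ∈ S ↔ (a : G ⧸ L) ∈ c x₀ := by
          intro a
          simp only [hS, hcdef, mem_ofPred_eq, Finset.mem_filter, Finset.mem_univ, true_and]
          rw [hout a x₀ hx₀U hfx₀]
        have hSo : IsOpen S := by
          have h5 : S = ⋃ a ∈ S, (fun b => a + b) '' (L : Set G) := by
            ext b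
            simp only [mem_iUnion, exists_prop]
            constructor
            · intro hb
              exact ⟨b, hb, 0, L.zero_mem, add_zero b⟩
            · rintro ⟨a, ha, l, hl, rfl⟩
              change D.g (a + l) x₀ = x₀
              rw [D.hgadd a l x₀ hx₀U, hfx₀ l hl]
              exact ha
          rw [h5]
          exact isOpen_biUnion fun a _ => isOpenMap_add_left a _ hL
        have hnear : ∀ᶠ x in 𝓝 x₀, ∀ q : G ⧸ L, q ∉ c x₀ → D.g q.out x ≠ x := by
          rw [Filter.eventually_all]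
          intro q
          by_cases hq : q ∈ c x₀
          · exact Filter.Eventually.of_forall fun x h => absurd hq h
          · have h5 : D.g q.out x₀ ≠ x₀ := fun h => hq
              (Finset.mem_filter.2 ⟨Finset.mem_univ _, h⟩)
            have h6 : ∀ᶠ x in 𝓝 x₀, D.g q.out x ≠ x :=
              (isClosed_eq (D.hg q.out) continuous_id).isOpen_compl.mem_nhds h5
            filter_upwards [h6] with x hx _ using hx
        obtain ⟨ρ, hρ, hρb⟩ := Metric.nhds_basis_closedBall.mem_iff.mp hnear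
        obtain ⟨N, hN, hNc, hMv⟩ := mvG_local μ D y (Z := Z₂ ∩ closedBall x₀ ρ)
          (measure_mono_null (inter_subset_left.trans (hZ₂Z.trans hZZ)) hZ0) hSo
          (D.hg0 x₀ hx₀U) (by
            rintro x ⟨hxZ, hxρ⟩ a ha
            have hxU := hZ'U (hZ₂Z hxZ)
            have h7 : c x ⊆ c x₀ := by
              intro q hq
              by_contra hcon
              exact hρb hxρ q hcon (Finset.mem_filter.1 hq).2
            have h8 : c x = c x₀ := Finset.eq_of_subset_of_card_le h7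
              ((hcard x₀ hx₀).trans (hc x (hZ₂Z hxZ)))
            have h9 : (a : G ⧸ L) ∈ c x := by
              rw [h8]
              exact (hSc a).1 ha
            have h10 := (Finset.mem_filter.1 h9).2
            rwa [hout a x hxU (hfin x (hZZ (hZ₂Z hxZ)))] at h10)
          hx₀U (fun a ha h => ha h)
        refine ⟨N ∩ closedBall x₀ ρ, inter_mem hN (closedBall_mem_nhds _ hρ),
          hNc.inter isClosed_closedBall, hMv.mono ?_⟩
        rintro x ⟨⟨h5, h6⟩, h7⟩
        exact ⟨h5, h7, h6⟩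
      obtain ⟨ψ₂, h5, h6, h7, h8⟩ := hMv _ hF1 (min (ε / 2) r) (lt_min (half_pos hε) hr)
      refine ⟨fun x => ψ₁ x + ψ₂ x, h1.add h5, h2.add h6, fun x => ?_, ?_⟩
      · calc ‖ψ₁ x + ψ₂ x‖ ≤ ‖ψ₁ x‖ + ‖ψ₂ x‖ := norm_add_le _ _
          _ ≤ ε / 2 + ε / 2 := add_le_add (h3 x) ((h7 x).trans (min_le_left _ _))
          _ = ε := add_halves ε
      · intro x hx heq
        by_cases hx2 : dist (F x + ψ₁ x) y ≤ 2 * r
        · apply h8 x ⟨hx, hx2⟩
          rw [add_assoc]
          exact heq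
        · apply hx2
          rw [← heq, ← add_assoc, dist_self_add_right]
          have := (h7 x).trans (min_le_right _ _)
          linarith
  exact key (Fintype.card (G ⧸ L) + 1) 0 (by omega) Z hZ Subset.rfl (fun x hx => Nat.zero_le _)

end Pool.Agent.Helper83.IO
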