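import Pool.Agent.HS3.FinMod

/-!
# Actions of compact abelian groups in a chart: averages over open subgroups
-/

set_option autoImplicit false
set_option linter.unusedSectionVars false
set_option linter.unusedVariables false

open Set MeasureTheory Metric Filter Topology
open scoped NNReal ENNReal

namespace Pool.Agent.Helper83.IO

open Pool.Agent.Helper3.HS

/-- An action of the group `G` on a bounded open set. -/
structure GA (G V : Type*) [AddCommGroup G] [TopologicalSpace G] [NormedAddCommGroup V] where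
  U : Set V
  g : G → V → V
  hU : IsOpen U
  hUb : Bornology.IsBounded U
  hg : ∀ a, Continuous (g a)
  hgj : ContinuousOn (fun q : G × V => g q.1 q.2) (univ ×ˢ U)
  hgU : ∀ a, ∀ x ∈ U, g a x ∈ U
  hg0 : ∀ x ∈ U, g 0 x = x
  hgadd : ∀ a b, ∀ x ∈ U, g (a + b) x = g a (g b x)

/-- Invariance under a subgroup. -/
def Inv {G V W : Type*} [AddCommGroup G] [TopologicalSpace G] [NormedAddCommGroup V]
    (D : GA G V) (H : AddSubgroup G) (f : V → W) : Prop :=
  ∀ a ∈ H, ∀ x ∈ D.U, f (D.g a x) = f x

section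

variable {G : Type*} [AddCommGroup G] [TopologicalSpace G] [IsTopologicalAddGroup G]
  [CompactSpace G]
  {V : Type*} [NormedAddCommGroup V] [NormedSpace ℝ V] [FiniteDimensional ℝ V]
  {W : Type*} [NormedAddCommGroup W] [NormedSpace ℝ W] [FiniteDimensional ℝ W]

namespace GA

variable (D : GA G V)

theorem inv (a : G) {x : V} (hx : x ∈ D.U) : D.g (-a) (D.g a x) = x := by
  rw [← D.hgadd _ _ x hx, neg_add_cancel, D.hg0 x hx]

theorem inv' (a : G) {x : V} (hx : x ∈ D.U) : D.g a (D.g (-a) x) = x := by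
  rw [← D.hgadd _ _ x hx, add_neg_cancel, D.hg0 x hx]

theorem continuous_orbit {x : V} (hx : x ∈ D.U) : Continuous (fun a : G => D.g a x) := by
  have h1 : Continuous (fun a : G => ((a, x) : G × V)) := by fun_prop
  exact D.hgj.comp_continuous h1 (fun a => ⟨mem_univ _, hx⟩)

theorem continuousAt_swap {x : V} (hx : x ∈ D.U) (a : G) :
    ContinuousAt (fun q : V × G => D.g q.2 q.1) (x, a) := by
  have h3 : ContinuousAt (fun q : G × V => D.g q.1 q.2) (a, x) :=
    D.hgj.continuousAt ((isOpen_univ.prod D.hU).mem_nhds ⟨mem_univ _, hx⟩)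
  exact ContinuousAt.comp (g := fun q : G × V => D.g q.1 q.2)
    (f := fun q : V × G => (q.2, q.1)) (x := (x, a)) h3 (by fun_prop)

/-- The saturation of a compact set is compact. -/
theorem compact_sat {B : Set V} (hB : IsCompact B) (hBU : B ⊆ D.U) {S : Set G}
    (hS : IsCompact S) : IsCompact ((fun q : G × V => D.g q.1 q.2) '' (S ×ˢ B)) := by
  apply (hS.prod hB).image_of_continuousOn
  exact D.hgj.mono (prod_mono (subset_univ _) hBU)

theorem sat_sub {B : Set V} (hBU : B ⊆ D.U) {S : Set G} :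
    (fun q : G × V => D.g q.1 q.2) '' (S ×ˢ B) ⊆ D.U := by
  rintro _ ⟨⟨a, x⟩, ⟨-, hx⟩, rfl⟩
  exact D.hgU a x (hBU hx)

end GA

variable [MeasurableSpace G] [BorelSpace G] {ν : Measure G} [ν.IsAddHaarMeasure]
  [IsProbabilityMeasure ν]

/-- **Averages.** Let `ψ₀` be continuous and zero outside a compact subset `B` of `U`, and let `H`
be an open subgroup. -/
theorem exists_avg (D : GA G V) (ν : Measure G) [ν.IsAddHaarMeasure] [IsProbabilityMeasure ν]
    {H : AddSubgroup G} (hH : IsOpen (H : Set G)) {ψ₀ : V → W} (hψ : Continuous ψ₀) {B : Set V}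
    (hB : IsCompact B) (hBU : B ⊆ D.U) (h0 : ∀ x ∉ B, ψ₀ x = 0) {M : ℝ} (hM : ∀ x, ‖ψ₀ x‖ ≤ M) :
    ∃ A : V → W, Continuous A ∧ Inv D H A ∧ (∀ x, ‖A x‖ ≤ M) ∧
      ∀ x ∈ D.U, ∀ S : Set G, MeasurableSet S → S ⊆ H → (∀ a ∈ S, ψ₀ (D.g a x) = ψ₀ x) →
        (∀ a ∈ H, a ∉ S → ψ₀ (D.g a x) = 0) → A x = (ν S).toReal • ψ₀ x := by
  classical
  have : ProperSpace V := FiniteDimensional.proper ℝ V
  have : ProperSpace W := FiniteDimensional.proper ℝ W
  have hHc : IsClosed (H : Set G) := H.isClosed_of_isOpen hH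
  set K : Set V := (fun q : G × V => D.g q.1 q.2) '' (univ ×ˢ B) with hK
  have hKcomp : IsCompact K := D.compact_sat hB hBU isCompact_univ
  have hKU : K ⊆ D.U := D.sat_sub hBU
  have hKmem : ∀ x ∈ D.U, x ∉ K → ∀ a, ψ₀ (D.g a x) = 0 := by
    intro x hx hxK a
    apply h0
    intro h
    exact hxK ⟨(-a, D.g a x), ⟨mem_univ _, h⟩, D.inv a hx⟩
  set f : V → G → W := fun x a => if x ∈ D.U ∧ a ∈ H then ψ₀ (D.g a x) else 0 with hf
  have hfc : Continuous (Function.uncurry f) := by
    rw [continuous_iff_continuousAt]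
    rintro ⟨x, a⟩
    by_cases ha : a ∈ H
    · by_cases hx : x ∈ D.U
      · have h5 : ContinuousAt (fun q : V × G => ψ₀ (D.g q.2 q.1)) (x, a) :=
          hψ.continuousAt.comp (D.continuousAt_swap hx a)
        apply h5.congr
        filter_upwards [(D.hU.prod hH).mem_nhds (⟨hx, ha⟩ : (x, a) ∈ D.U ×ˢ (H : Set G))]
          with q hq
        simp only [Function.uncurry, hf]
        rw [if_pos ⟨hq.1, hq.2⟩]
      · have hxK : x ∉ K := fun h => hx (hKU h)
        apply (continuousAt_const (y := (0 : W))).congr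
        filter_upwards [(hKcomp.isClosed.isOpen_compl.prod isOpen_univ).mem_nhds
          (⟨hxK, mem_univ a⟩ : (x, a) ∈ Kᶜ ×ˢ univ)] with q hq
        simp only [Function.uncurry, hf]
        split_ifs with h
        · exact (hKmem q.1 h.1 hq.1 q.2).symm
        · rfl
    · apply (continuousAt_const (y := (0 : W))).congr
      filter_upwards [(isOpen_univ.prod hHc.isOpen_compl).mem_nhds
        (⟨mem_univ x, ha⟩ : (x, a) ∈ univ ×ˢ (H : Set G)ᶜ)] with q hq
      simp only [Function.uncurry, hf]
      rw [if_neg (fun h => hq.2 h.2)]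
  have hfM : ∀ x a, ‖f x a‖ ≤ M := by
    intro x a
    simp only [hf]
    split_ifs
    · exact hM _
    · rw [norm_zero]
      exact (norm_nonneg _).trans (hM x)
  refine ⟨fun x => ∫ a, f x a ∂ν, ?_, ?_, ?_, ?_⟩
  · have h1 := continuous_parametric_integral_of_continuous (μ := ν) hfc isCompact_univ
    simp only [Measure.restrict_univ] at h1
    exact h1
  · intro b hb x hx
    have hbU := D.hgU b x hx
    have h1 : ∀ a, f (D.g b x) a = f x (a + b) := by
      intro a
      simp only [hf]
      have h2 : a + b ∈ H ↔ a ∈ H := H.add_mem_cancel_right hb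
      by_cases ha : a ∈ H
      · rw [if_pos ⟨hbU, ha⟩, if_pos ⟨hx, h2.2 ha⟩, D.hgadd a b x hx]
      · rw [if_neg (fun h => ha h.2), if_neg (fun h => ha (h2.1 h.2))]
    simp only [h1]
    exact integral_add_right_eq_self (fun a => f x a) b
  · intro x
    have h2 := norm_integral_le_of_norm_le_const (μ := ν) (f := f x) (C := M)
      (ae_of_all _ fun a => hfM x a)
    simpa using h2
  · intro x hx S hS hSH h1 h2
    have h3 : ∀ a, f x a = S.indicator (fun _ => ψ₀ x) a := by
      intro a
      simp only [hf]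
      by_cases ha : a ∈ S
      · rw [indicator_of_mem ha, if_pos ⟨hx, hSH ha⟩, h1 a ha]
      · rw [indicator_of_notMem ha]
        split_ifs with h
        · exact h2 a h.2 ha
        · rfl
    simp only [h3]
    rw [integral_indicator hS, integral_const, measureReal_def, Measure.restrict_apply_univ]

end

end Pool.Agent.Helper83.IO
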