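import Pool.Agent.Helper83.IO.Pair

/-!
# Approximation by Lipschitz maps, and images of thin sets
-/

set_option autoImplicit false
set_option linter.unusedSectionVars false
set_option linter.unusedVariables false

open Set MeasureTheory Metric Filter Topology
open scoped NNReal ENNReal

namespace Pool.Agent.Helper83.IO

/-- Continuous functions on a compact set can be approximated by Lipschitz functions. -/
theorem exists_lip_real {Y : Type*} [PseudoMetricSpace Y] {K : Set Y} (hK : IsCompact K)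
    {f : Y → ℝ} (hf : ContinuousOn f K) {ε : ℝ} (hε : 0 < ε) :
    ∃ (C : ℝ≥0) (g : Y → ℝ), LipschitzWith C g ∧ ∀ y ∈ K, |g y - f y| ≤ ε := by
  rcases K.eq_empty_or_nonempty with rfl | hne
  · exact ⟨0, fun _ => 0, LipschitzWith.const 0, fun y hy => hy.elim⟩
  have huc := hK.uniformContinuousOn_of_continuous hf
  rw [Metric.uniformContinuousOn_iff] at huc
  obtain ⟨δ, hδ, hδf⟩ := huc ε hε
  obtain ⟨M, hM⟩ := hK.exists_bound_of_continuousOn hf
  have hM0 : 0 ≤ M := by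
    obtain ⟨x, hx⟩ := hne
    exact (norm_nonneg _).trans (hM x hx)
  have hM1 : ∀ x ∈ K, -M ≤ f x := fun x hx => by
    have := hM x hx
    rw [Real.norm_eq_abs] at this
    exact neg_le_of_abs_le this
  have hM2 : ∀ x ∈ K, f x ≤ M := fun x hx => by
    have := hM x hx
    rw [Real.norm_eq_abs] at this
    exact le_of_abs_le this
  set n : ℝ := 2 * M / δ with hn
  have hn0 : 0 ≤ n := by positivity
  set g : Y → ℝ := fun y => sInf ((fun x => f x + n * dist x y) '' K) with hg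
  have hbdd : ∀ y, BddBelow ((fun x => f x + n * dist x y) '' K) := by
    intro y
    refine ⟨-M, ?_⟩
    rintro _ ⟨x, hx, rfl⟩
    have := hM1 x hx
    have h2 : 0 ≤ n * dist x y := by positivity
    simp only
    linarith
  have hlip : LipschitzWith n.toNNReal g := by
    apply LipschitzWith.of_le_add_mul
    intro y y'
    rw [Real.coe_toNNReal _ hn0]
    have h1 : g y - n * dist y y' ≤ g y' := by
      apply le_csInf (hne.image _)
      rintro _ ⟨x, hx, rfl⟩
      have h2 : g y ≤ f x + n * dist x y := csInf_le (hbdd y) ⟨x, hx, rfl⟩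
      have h3 : dist x y ≤ dist x y' + dist y y' := by
        rw [dist_comm y y']
        exact dist_triangle _ _ _
      have h4 : n * dist x y ≤ n * (dist x y' + dist y y') :=
        mul_le_mul_of_nonneg_left h3 hn0
      simp only
      linarith [mul_add n (dist x y') (dist y y')]
    linarith
  refine ⟨n.toNNReal, g, hlip, fun y hy => ?_⟩
  have h1 : g y ≤ f y := by
    have : g y ≤ f y + n * dist y y := csInf_le (hbdd y) ⟨y, hy, rfl⟩
    rw [dist_self, mul_zero, add_zero] at this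
    exact this
  have h2 : f y - ε ≤ g y := by
    apply le_csInf (hne.image _)
    rintro _ ⟨x, hx, rfl⟩
    simp only
    by_cases hd : dist x y < δ
    · have h3 := hδf x hx y hy hd
      rw [Real.dist_eq, abs_lt] at h3
      have h4 : 0 ≤ n * dist x y := by positivity
      linarith [h3.1]
    · push Not at hd
      have h3 : 2 * M ≤ n * dist x y := by
        calc 2 * M = n * δ := by rw [hn]; field_simp
          _ ≤ n * dist x y := mul_le_mul_of_nonneg_left hd hn0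
      have h4 := hM1 x hx
      have h5 := hM2 y hy
      linarith
  rw [abs_le]
  constructor <;> linarith

/-- The vector-valued version. -/
theorem exists_lip {Y : Type*} [PseudoMetricSpace Y] {W : Type*} [NormedAddCommGroup W]
    [NormedSpace ℝ W] [FiniteDimensional ℝ W] {K : Set Y} (hK : IsCompact K)
    {f : Y → W} (hf : ContinuousOn f K) {ε : ℝ} (hε : 0 < ε) :
    ∃ (C : ℝ≥0) (g : Y → W), LipschitzWith C g ∧ ∀ y ∈ K, ‖g y - f y‖ ≤ ε := by
  classical
  set e : W ≃L[ℝ] (Fin (Module.finrank ℝ W) → ℝ) :=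
    ContinuousLinearEquiv.ofFinrankEq (by simp) with he
  set c : ℝ := ‖(e.symm : (Fin (Module.finrank ℝ W) → ℝ) →L[ℝ] W)‖ + 1 with hc
  have hc0 : 0 < c := by positivity
  have h1 : ∀ i, ∃ (C : ℝ≥0) (g : Y → ℝ), LipschitzWith C g ∧
      ∀ y ∈ K, |g y - e (f y) i| ≤ ε / c := by
    intro i
    apply exists_lip_real hK (f := fun y => e (f y) i) _ (by positivity)
    exact (continuous_apply i).comp_continuousOn (e.continuous.comp_continuousOn hf)
  choose C g hg1 hg2 using h1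
  set G : Y → (Fin (Module.finrank ℝ W) → ℝ) := fun y i => g i y with hG
  have hGlip : LipschitzWith (∑ i, C i) G := by
    intro x y
    rw [edist_pi_le_iff]
    intro i
    refine (hg1 i x y).trans ?_
    gcongr
    exact Finset.single_le_sum (f := C) (fun _ _ => zero_le) (Finset.mem_univ i)
  refine ⟨_, fun y => e.symm (G y), e.symm.lipschitz.comp hGlip, fun y hy => ?_⟩
  have h2 : e.symm (G y) - f y = e.symm (G y - e (f y)) := by
    rw [map_sub, e.symm_apply_apply]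
  rw [h2]
  have h3 : ‖G y - e (f y)‖ ≤ ε / c := by
    rw [pi_norm_le_iff_of_nonneg (by positivity)]
    intro i
    exact hg2 i y hy
  calc ‖e.symm (G y - e (f y))‖
      ≤ ‖(e.symm : (Fin (Module.finrank ℝ W) → ℝ) →L[ℝ] W)‖ * ‖G y - e (f y)‖ :=
        (e.symm : (Fin (Module.finrank ℝ W) → ℝ) →L[ℝ] W).le_opNorm _
    _ ≤ c * (ε / c) := by
        gcongr
        rw [hc]
        linarith
    _ = ε := by field_simp

/-- The power mean inequality. -/
theorem lintegral_pow_le {A : Type*} [MeasurableSpace A] (ν : Measure A) [IsProbabilityMeasure ν]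
    {f : A → ℝ≥0∞} (hf : Measurable f) {N : ℕ} (hN : N ≠ 0) :
    (∫⁻ a, f a ∂ν) ^ N ≤ ∫⁻ a, f a ^ N ∂ν := by
  have h1 : (1 : ℝ≥0∞) ≤ N := by
    exact_mod_cast Nat.one_le_iff_ne_zero.2 hN
  have h2 := eLpNorm_le_eLpNorm_of_exponent_le (μ := ν) h1
    (f := f) hf.aestronglyMeasurable
  rw [eLpNorm_one_eq_lintegral_enorm, eLpNorm_eq_lintegral_rpow_enorm_toReal (by simpa using hN)
    (ENNReal.natCast_ne_top N)] at h2
  simp only [enorm_eq_self, ENNReal.toReal_natCast, ENNReal.rpow_natCast] at h2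
  calc (∫⁻ a, f a ∂ν) ^ N ≤ ((∫⁻ a, f a ^ N ∂ν) ^ (1 / (N : ℝ))) ^ N := by gcongr
    _ = ∫⁻ a, f a ^ N ∂ν := by
        rw [← ENNReal.rpow_natCast, ← ENNReal.rpow_mul, one_div,
          inv_mul_cancel₀ (by exact_mod_cast hN), ENNReal.rpow_one]

/-- **Thin sets**, general form. Here `Γ a x` is the position of the point `x` under `a`. -/
def Thin {A X Y : Type*} [PseudoEMetricSpace Y] [MeasurableSpace A] (ν : Measure A)
    (Γ : A → X → Y) (N : ℕ) (Z : Set X) : Prop :=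
  ∀ ε : ℝ≥0∞, 0 < ε → ∃ (E : ℕ → Set X) (ρ : ℕ → A → ℝ≥0∞), Z ⊆ ⋃ i, E i ∧
    (∀ i, Measurable (ρ i)) ∧ (∀ i a, ediam (Γ a '' (E i ∩ Z)) ≤ ρ i a) ∧
    ∑' i, ∫⁻ a, (ρ i a) ^ N ∂ν ≤ ε

theorem Thin.mono {A X Y : Type*} [PseudoEMetricSpace Y] [MeasurableSpace A] {ν : Measure A}
    {Γ : A → X → Y} {N : ℕ} {Z Z' : Set X} (h : Thin ν Γ N Z') (hZ : Z ⊆ Z') :
    Thin ν Γ N Z := by
  intro ε hε
  obtain ⟨E, ρ, h1, h2, h3, h4⟩ := h ε hε
  exact ⟨E, ρ, hZ.trans h1, h2, fun i a => (ediam_mono (image_mono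
    (inter_subset_inter_right _ hZ))).trans (h3 i a), h4⟩

/-- **The image of a thin set is null.** -/
theorem thin_null {A X Y W : Type*} [PseudoEMetricSpace Y] [MeasurableSpace A] {ν : Measure A}
    [IsProbabilityMeasure ν] [NormedAddCommGroup W] [NormedSpace ℝ W] [FiniteDimensional ℝ W]
    [MeasurableSpace W] [BorelSpace W] (μ : Measure W) [μ.IsAddHaarMeasure] {Γ : A → X → Y}
    {N : ℕ} (hN : N = Module.finrank ℝ W) (hN0 : N ≠ 0) {Z : Set X} (h : Thin ν Γ N Z)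
    {Θ : Y → W} {C : ℝ≥0} (hΘ : LipschitzWith C Θ)
    (hint : ∀ x ∈ Z, Integrable (fun a => Θ (Γ a x)) ν) :
    μ ((fun x => ∫ a, Θ (Γ a x) ∂ν) '' Z) = 0 := by
  classical
  set Ξ : X → W := fun x => ∫ a, Θ (Γ a x) ∂ν with hΞ
  set κ : ℝ≥0∞ := (C : ℝ≥0∞) ^ N * μ (ball 0 1) with hκ
  have hκt : κ ≠ ⊤ := ENNReal.mul_ne_top (ENNReal.pow_ne_top ENNReal.coe_ne_top)
    measure_ball_lt_top.ne
  have key : ∀ ε : ℝ≥0∞, 0 < ε → ε ≠ ⊤ → μ (Ξ '' Z) ≤ κ * ε := by
    intro ε hε hεt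
    obtain ⟨E, ρ, h1, h2, h3, h4⟩ := h ε hε
    have h5 : ∀ i, μ (Ξ '' (E i ∩ Z)) ≤ κ * ∫⁻ a, (ρ i a) ^ N ∂ν := by
      intro i
      rcases (E i ∩ Z).eq_empty_or_nonempty with he | ⟨x₀, hx₀⟩
      · rw [he, image_empty, measure_empty]
        exact zero_le
      set r : ℝ≥0∞ := (C : ℝ≥0∞) * ∫⁻ a, ρ i a ∂ν with hr
      have hpow : (∫⁻ a, ρ i a ∂ν) ^ N ≤ ∫⁻ a, (ρ i a) ^ N ∂ν :=
        lintegral_pow_le ν (h2 i) hN0
      have hfin : ∫⁻ a, (ρ i a) ^ N ∂ν ≠ ⊤ := by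
        refine ne_top_of_le_ne_top hεt (le_trans ?_ h4)
        exact ENNReal.le_tsum i
      have hrt : r ≠ ⊤ := by
        apply ENNReal.mul_ne_top ENNReal.coe_ne_top
        intro h6
        rw [h6, ENNReal.top_pow hN0] at hpow
        exact hfin (top_le_iff.1 hpow)
      have h6 : Ξ '' (E i ∩ Z) ⊆ closedBall (Ξ x₀) r.toReal := by
        rintro _ ⟨x, hx, rfl⟩
        rw [mem_closedBall, ← ENNReal.ofReal_le_iff_le_toReal hrt, ← edist_dist,
          edist_eq_enorm_sub]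
        have e1 : Ξ x - Ξ x₀ = ∫ a, (Θ (Γ a x) - Θ (Γ a x₀)) ∂ν := by
          rw [integral_sub (hint x hx.2) (hint x₀ hx₀.2)]
        rw [e1]
        refine (enorm_integral_le_lintegral_enorm _).trans ?_
        rw [hr, ← lintegral_const_mul _ (h2 i)]
        apply lintegral_mono
        intro a
        simp only
        rw [← edist_eq_enorm_sub]
        refine (hΘ _ _).trans ?_
        gcongr
        exact (edist_le_ediam_of_mem (mem_image_of_mem _ hx) (mem_image_of_mem _ hx₀)).trans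
          (h3 i a)
      calc μ (Ξ '' (E i ∩ Z)) ≤ μ (closedBall (Ξ x₀) r.toReal) := measure_mono h6
        _ = ENNReal.ofReal (r.toReal ^ N) * μ (ball 0 1) := by
            rw [Measure.addHaar_closedBall μ _ ENNReal.toReal_nonneg, hN]
        _ = r ^ N * μ (ball 0 1) := by
            rw [ENNReal.ofReal_pow ENNReal.toReal_nonneg, ENNReal.ofReal_toReal hrt]
        _ ≤ κ * ∫⁻ a, (ρ i a) ^ N ∂ν := by
            rw [hr, mul_pow, hκ]
            calc (C : ℝ≥0∞) ^ N * (∫⁻ a, ρ i a ∂ν) ^ N * μ (ball 0 1)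
                = (C : ℝ≥0∞) ^ N * μ (ball 0 1) * (∫⁻ a, ρ i a ∂ν) ^ N := by ring
              _ ≤ _ := by gcongr
    calc μ (Ξ '' Z) ≤ μ (⋃ i, Ξ '' (E i ∩ Z)) := by
          apply measure_mono
          rintro _ ⟨x, hx, rfl⟩
          obtain ⟨i, hi⟩ := mem_iUnion.1 (h1 hx)
          exact mem_iUnion.2 ⟨i, x, ⟨hi, hx⟩, rfl⟩
      _ ≤ ∑' i, μ (Ξ '' (E i ∩ Z)) := measure_iUnion_le _
      _ ≤ ∑' i, κ * ∫⁻ a, (ρ i a) ^ N ∂ν := ENNReal.tsum_le_tsum h5
      _ = κ * ∑' i, ∫⁻ a, (ρ i a) ^ N ∂ν := ENNReal.tsum_mul_left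
      _ ≤ κ * ε := by gcongr
  by_contra hne
  have hpos : 0 < μ (Ξ '' Z) := pos_iff_ne_zero.2 hne
  obtain ⟨ε, hε, hεκ⟩ : ∃ ε : ℝ≥0∞, 0 < ε ∧ ε ≠ ⊤ ∧ κ * ε < μ (Ξ '' Z) := by
    rcases eq_or_ne κ 0 with h0 | h0
    · exact ⟨1, zero_lt_one, ENNReal.one_ne_top, by rw [h0, zero_mul]; exact hpos⟩
    obtain ⟨c, hc0, hc⟩ := exists_between hpos
    have hct : c ≠ ⊤ := hc.ne_top
    refine ⟨κ⁻¹ * c, ?_, ?_, ?_⟩
    · exact ENNReal.mul_pos (ENNReal.inv_ne_zero.2 hκt) hc0.ne'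
    · exact ENNReal.mul_ne_top (ENNReal.inv_ne_top.2 h0) hct
    · rw [← mul_assoc, ENNReal.mul_inv_cancel h0 hκt, one_mul]
      exact hc
  exact absurd (key ε hε hεκ.1) (not_le.2 hεκ.2)

end Pool.Agent.Helper83.IO
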