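import Pool.Agent.Helper83.IO.Fin2

/-!
# Pairs of an invariant map and some level functions
-/

set_option autoImplicit false
set_option linter.unusedSectionVars false
set_option linter.unusedVariables false

open Set MeasureTheory Metric Filter Topology
open scoped NNReal ENNReal

namespace Pool.Agent.Helper83.IO

open Pool.Agent.Helper3.HS

variable {G : Type*} [AddCommGroup G] [TopologicalSpace G] [IsTopologicalAddGroup G]
  [CompactSpace G]
  {V : Type*} [NormedAddCommGroup V] [NormedSpace ℝ V] [FiniteDimensional ℝ V]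
  [MeasurableSpace V] [BorelSpace V] {m : ℕ}

/-- The first component is invariant under the whole group, the component `i` of the second one
under the subgroup `H i`. -/
def InvP (D : GA G V) (H : Fin m → AddSubgroup G) (Φ : V → V × (Fin m → ℝ)) : Prop :=
  Inv D ⊤ (fun x => (Φ x).1) ∧ ∀ i, Inv D (H i) (fun x => (Φ x).2 i)

/-- Invariant pairs can be moved off `z` on the set `Z`. -/
def MvP (D : GA G V) (H : Fin m → AddSubgroup G) (z : V × (Fin m → ℝ)) (Z : Set V) : Prop :=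
  ∀ Φ : V → V × (Fin m → ℝ), ContinuousOn Φ (closure D.U) → InvP D H Φ → ∀ ε : ℝ, 0 < ε →
    ∃ Ψ : V → V × (Fin m → ℝ), Continuous Ψ ∧ InvP D H Ψ ∧ (∀ x, ‖Ψ x‖ ≤ ε) ∧
      ∀ x ∈ Z, Φ x + Ψ x ≠ z

theorem InvP.add {D : GA G V} {H : Fin m → AddSubgroup G} {Φ Ψ : V → V × (Fin m → ℝ)}
    (h : InvP D H Φ) (h' : InvP D H Ψ) : InvP D H (fun x => Φ x + Ψ x) := by
  refine ⟨?_, fun i => ?_⟩
  · intro a ha x hx
    have e1 := h.1 a ha x hx
    have e2 := h'.1 a ha x hx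
    simp only [Prod.fst_add] at e1 e2 ⊢
    rw [e1, e2]
  · intro a ha x hx
    have e1 := h.2 i a ha x hx
    have e2 := h'.2 i a ha x hx
    simp only [Prod.snd_add, Pi.add_apply] at e1 e2 ⊢
    rw [e1, e2]

theorem InvP.const (D : GA G V) (H : Fin m → AddSubgroup G) (z : V × (Fin m → ℝ)) :
    InvP D H (fun _ => z) :=
  ⟨fun _ _ _ _ => rfl, fun _ _ _ _ _ => rfl⟩

variable {D : GA G V} {H : Fin m → AddSubgroup G} {z : V × (Fin m → ℝ)}

theorem MvP.mono {Z Z' : Set V} (h : MvP D H z Z') (hZ : Z ⊆ Z') : MvP D H z Z := by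
  intro Φ hΦ hi ε hε
  obtain ⟨Ψ, h1, h2, h3, h4⟩ := h Φ hΦ hi ε hε
  exact ⟨Ψ, h1, h2, h3, fun x hx => h4 x (hZ hx)⟩

variable (D H z) in
theorem MvP.empty : MvP D H z ∅ := by
  intro Φ hΦ hi ε hε
  exact ⟨fun _ => 0, continuous_const, InvP.const D H 0, fun _ => by simpa using hε.le,
    fun x hx => hx.elim⟩

/-- First on `Z`, then on the part of `Z'` where the value is still close to `z`. -/
theorem MvP.union' {Z Z' : Set V} (hZ : IsCompact Z) (hZU : Z ⊆ D.U)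
    (h : MvP D H z Z) (h' : ∀ Φ : V → V × (Fin m → ℝ), ContinuousOn Φ (closure D.U) →
      InvP D H Φ → (∀ x ∈ Z, Φ x ≠ z) → ∀ ε : ℝ, 0 < ε →
      ∃ Ψ : V → V × (Fin m → ℝ), Continuous Ψ ∧ InvP D H Ψ ∧ (∀ x, ‖Ψ x‖ ≤ ε) ∧
        ∀ x ∈ Z', Φ x + Ψ x ≠ z) : MvP D H z (Z ∪ Z') := by
  intro Φ hΦ hi ε hε
  obtain ⟨Ψ₁, h1, h2, h3, h4⟩ := h Φ hΦ hi (ε / 2) (half_pos hε)
  have hF1 : ContinuousOn (fun x => Φ x + Ψ₁ x) (closure D.U) := hΦ.add h1.continuousOn
  obtain ⟨r, hr, hgap⟩ := exists_gap hZ (hF1.mono (hZU.trans subset_closure)) (y := z) h4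
  obtain ⟨Ψ₂, h5, h6, h7, h8⟩ := h' _ hF1 (hi.add h2) h4 (min (ε / 2) r)
    (lt_min (half_pos hε) hr)
  refine ⟨fun x => Ψ₁ x + Ψ₂ x, h1.add h5, h2.add h6, fun x => ?_, ?_⟩
  · calc ‖Ψ₁ x + Ψ₂ x‖ ≤ ‖Ψ₁ x‖ + ‖Ψ₂ x‖ := norm_add_le _ _
      _ ≤ ε / 2 + ε / 2 := add_le_add (h3 x) ((h7 x).trans (min_le_left _ _))
      _ = ε := add_halves ε
  · rintro x (hx | hx) heq
    · have h9 := hgap x hx
      have h10 : dist (Φ x + Ψ₁ x) z ≤ r := by
        rw [← heq, ← add_assoc, dist_self_add_right]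
        exact (h7 x).trans (min_le_right _ _)
      linarith
    · apply h8 x hx
      rw [add_assoc]
      exact heq

theorem MvP.union {Z Z' : Set V} (hZ : IsCompact Z) (hZU : Z ⊆ D.U)
    (h : MvP D H z Z) (h' : MvP D H z Z') : MvP D H z (Z ∪ Z') :=
  MvP.union' hZ hZU h fun Φ hΦ hi _ => h' Φ hΦ hi

/-- Local to global. -/
theorem MvP.of_local {Z : Set V} (hZ : IsCompact Z) (hZU : Z ⊆ D.U)
    (h : ∀ x ∈ Z, ∃ N ∈ 𝓝 x, IsClosed N ∧ MvP D H z (N ∩ Z)) : MvP D H z Z := by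
  have h1 : ∃ K : Set V, IsCompact K ∧ K ⊆ D.U ∧ Z ⊆ K ∧ MvP D H z K := by
    apply hZ.induction_on (p := fun s => ∃ K : Set V, IsCompact K ∧ K ⊆ D.U ∧ s ⊆ K ∧
      MvP D H z K)
    · exact ⟨∅, isCompact_empty, empty_subset _, Subset.rfl, MvP.empty D H z⟩
    · rintro s t hst ⟨K, h1, h2, h3, h4⟩
      exact ⟨K, h1, h2, hst.trans h3, h4⟩
    · rintro s t ⟨K, h1, h2, h3, h4⟩ ⟨K', h1', h2', h3', h4'⟩
      exact ⟨K ∪ K', h1.union h1', union_subset h2 h2', union_subset_union h3 h3',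
        MvP.union h1 h2 h4 h4'⟩
    · intro x hx
      obtain ⟨N, hN, hNc, hMv⟩ := h x hx
      refine ⟨N ∩ Z, inter_mem (mem_nhdsWithin_of_mem_nhds hN) self_mem_nhdsWithin, N ∩ Z,
        hZ.inter_left hNc, inter_subset_right.trans hZU, Subset.rfl, hMv⟩
  obtain ⟨K, -, -, h3, h4⟩ := h1
  exact h4.mono h3

/-- A small constant makes a level set null. -/
theorem exists_null_shift (μ : Measure V) [μ.IsAddHaarMeasure] {Z : Set V} (hZ : IsCompact Z)
    {w : V → ℝ} (hw : ContinuousOn w Z) (t : ℝ) {ε : ℝ} (hε : 0 < ε) :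
    ∃ s : ℝ, |s| ≤ ε ∧ μ {x | x ∈ Z ∧ w x + s = t} = 0 := by
  have : ProperSpace V := FiniteDimensional.proper ℝ V
  obtain ⟨g, hg⟩ := ContinuousMap.exists_restrict_eq hZ.isClosed
    ⟨fun x : Z => w x, continuousOn_iff_continuous_domRestrict.mp hw⟩
  have hgw : ∀ x ∈ Z, g x = w x := fun x hx => congrArg (fun f => f ⟨x, hx⟩) hg
  have h1 := Measure.countable_meas_level_set_pos (μ := μ.restrict Z) g.continuous.measurable
  have h2 : ¬ (Ioo (t - ε) t).Countable := by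
    intro h
    have h3 := h.measure_zero (volume : Measure ℝ)
    rw [Real.volume_Ioo, ENNReal.ofReal_eq_zero] at h3
    linarith
  obtain ⟨r, hr, hr2⟩ : ∃ r ∈ Ioo (t - ε) t, ¬ 0 < μ.restrict Z {x | g x = r} := by
    by_contra hcon
    push Not at hcon
    exact h2 (h1.mono fun r hr => hcon r hr)
  refine ⟨t - r, ?_, ?_⟩
  · rw [abs_le]
    constructor <;> linarith [hr.1, hr.2]
  · have h3 : μ.restrict Z {x | g x = r} = 0 := by
      by_contra hne
      exact hr2 (pos_iff_ne_zero.2 hne)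
    rw [Measure.restrict_apply (measurableSet_eq_fun g.continuous.measurable measurable_const)]
      at h3
    refine measure_mono_null ?_ h3
    rintro x ⟨hx, hx2⟩
    refine ⟨?_, hx⟩
    change g x = r
    rw [hgw x hx]
    linarith

/-- **Finite orbits are negligible.** -/
theorem mvP_fin (i₀ : Fin m) {L : AddSubgroup G}
    (hL : IsOpen (L : Set G)) {Z : Set V} (hZ : IsCompact Z) (hZU : Z ⊆ D.U)
    (hfin : ∀ x ∈ Z, ∀ a ∈ L, D.g a x = x) : MvP D H z Z := by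
  classical
  intro Φ hΦ hi ε hε
  set μ : Measure V := Measure.addHaar with hμ
  have hΦZ : ContinuousOn Φ Z := hΦ.mono (hZU.trans subset_closure)
  have hw : ContinuousOn (fun x => (Φ x).2 i₀) Z :=
    (continuous_apply i₀).comp_continuousOn (continuous_snd.comp_continuousOn hΦZ)
  obtain ⟨s, hs, hs0⟩ := exists_null_shift μ hZ hw (z.2 i₀) hε
  set Z₁ : Set V := {x | x ∈ Z ∧ (Φ x).2 i₀ + s = z.2 i₀} with hZ₁
  have hZ₁c : IsCompact Z₁ := by
    have h5 : ContinuousOn (fun x => (Φ x).2 i₀ + s) Z := hw.add continuousOn_const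
    have h6 : Z₁ = Z ∩ (fun x => (Φ x).2 i₀ + s) ⁻¹' {z.2 i₀} := rfl
    rw [h6]
    exact hZ.of_isClosed_subset (h5.preimage_isClosed_of_isClosed hZ.isClosed isClosed_singleton)
      inter_subset_left
  have hZ₁Z : Z₁ ⊆ Z := fun x hx => hx.1
  obtain ⟨ψ, h1, h2, h3, h4⟩ := mvG_fin μ D z.1 hL hZ₁c (hZ₁Z.trans hZU) hs0
    (fun x hx => hfin x hx.1) (fun x => (Φ x).1)
    (continuous_fst.comp_continuousOn hΦ) ε hε
  refine ⟨fun x => (ψ x, Pi.single i₀ s), h1.prodMk continuous_const, ⟨?_, ?_⟩, ?_, ?_⟩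
  · intro a ha x hx
    exact h2 a ha x hx
  · intro i a ha x hx
    rfl
  · intro x
    rw [Prod.norm_def]
    apply max_le (h3 x)
    rw [pi_norm_le_iff_of_nonneg hε.le]
    intro i
    by_cases hii : i = i₀
    · subst hii
      simpa using hs
    · simp only [Pi.single_apply, if_neg hii, norm_zero]
      exact hε.le
  · intro x hx heq
    have e1 : (Φ x).1 + ψ x = z.1 := congrArg Prod.fst heq
    have e2 : (Φ x).2 i₀ + s = z.2 i₀ := by
      have := congrFun (congrArg Prod.snd heq) i₀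
      simpa using this
    exact h4 x ⟨hx, e2⟩ e1

end Pool.Agent.Helper83.IO
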